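import Mathlib

/-!
# The bound for the degree, generating sets and automorphism groups
-/

set_option autoImplicit false

namespace Pool.Agent.Helper503_AD

/-- the bound for the degree -/
def bd (r : ℕ) : ℕ := r ^ (1 + Nat.log 2 (r ^ 2))

lemma bd_pos {r : ℕ} (hr : 0 < r) : 0 < bd r := by
  unfold bd
  positivity

lemma bd_mono {a b : ℕ} (h : a ≤ b) : bd a ≤ bd b := by
  unfold bd
  rcases Nat.eq_zero_or_pos a with rfl | ha
  · rw [zero_pow (by omega)]
    exact Nat.zero_le _
  · calc a ^ (1 + Nat.log 2 (a ^ 2)) ≤ b ^ (1 + Nat.log 2 (a ^ 2)) := Nat.pow_le_pow_left h _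
      _ ≤ b ^ (1 + Nat.log 2 (b ^ 2)) := by
        refine Nat.pow_le_pow_right (ha.trans_le h) ?_
        have h1 : Nat.log 2 (a ^ 2) ≤ Nat.log 2 (b ^ 2) :=
          Nat.log_mono_right (Nat.pow_le_pow_left h 2)
        omega

lemma mul_bd_le {t m : ℕ} (ht : 0 < t) : t * bd m ≤ bd (t * m) := by
  unfold bd
  rcases Nat.eq_zero_or_pos m with rfl | hm
  · rw [zero_pow (by omega), mul_zero]
    exact Nat.zero_le _
  · calc t * m ^ (1 + Nat.log 2 (m ^ 2))
        ≤ t ^ (1 + Nat.log 2 (m ^ 2)) * m ^ (1 + Nat.log 2 (m ^ 2)) :=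
          Nat.mul_le_mul_right _ (Nat.le_self_pow (by omega) t)
      _ = (t * m) ^ (1 + Nat.log 2 (m ^ 2)) := (mul_pow _ _ _).symm
      _ ≤ (t * m) ^ (1 + Nat.log 2 ((t * m) ^ 2)) := by
        refine Nat.pow_le_pow_right (Nat.mul_pos ht hm) ?_
        have h1 : Nat.log 2 (m ^ 2) ≤ Nat.log 2 ((t * m) ^ 2) :=
          Nat.log_mono_right (Nat.pow_le_pow_left (Nat.le_mul_of_pos_left m ht) 2)
        omega

/-- a generating set of logarithmic size -/
lemma exists_gen (M : Type*) [Group M] [Finite M] :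
    ∃ T : Finset M, Subgroup.closure (T : Set M) = ⊤ ∧ 2 ^ T.card ≤ Nat.card M := by
  classical
  have : Fintype M := Fintype.ofFinite M
  let A : Set (Finset M) := {T | 2 ^ T.card ≤ Nat.card (Subgroup.closure (T : Set M))}
  have hA : A.Nonempty := ⟨∅, by
    change 2 ^ (∅ : Finset M).card ≤ _
    rw [Finset.card_empty, pow_zero]
    exact Nat.card_pos⟩
  obtain ⟨T, hT⟩ := (Set.toFinite A).exists_maximal hA
  have hT1 : 2 ^ T.card ≤ Nat.card (Subgroup.closure (T : Set M)) := hT.prop
  refine ⟨T, ?_, hT1.trans (Subgroup.card_le_card_group _)⟩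
  by_contra hne
  obtain ⟨x, hx⟩ : ∃ x, x ∉ Subgroup.closure (T : Set M) := by
    by_contra h
    push Not at h
    exact hne (eq_top_iff.mpr fun y _ => h y)
  have hxT : x ∉ T := fun h => hx (Subgroup.subset_closure h)
  have hle : Subgroup.closure (T : Set M) ≤ Subgroup.closure ((insert x T : Finset M) : Set M) :=
    Subgroup.closure_mono (by simp)
  have hmem : x ∈ Subgroup.closure ((insert x T : Finset M) : Set M) :=
    Subgroup.subset_closure (by simp)
  have hlt : Nat.card (Subgroup.closure (T : Set M))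
      < Nat.card (Subgroup.closure ((insert x T : Finset M) : Set M)) := by
    refine lt_of_le_of_ne (Subgroup.card_le_of_le hle) fun h => ?_
    have := Subgroup.eq_of_le_of_card_ge hle h.ge
    rw [← this] at hmem
    exact hx hmem
  obtain ⟨k, hk⟩ := Subgroup.card_dvd_of_le hle
  have hk2 : 2 ≤ k := by
    by_contra h
    have : k = 0 ∨ k = 1 := by omega
    rcases this with rfl | rfl
    · rw [mul_zero] at hk
      omega
    · rw [mul_one] at hk
      omega
  have hins : insert x T ∈ A := by
    change 2 ^ (insert x T).card ≤ _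
    rw [Finset.card_insert_of_notMem hxT, pow_succ, hk]
    exact Nat.mul_le_mul hT1 hk2
  have h1 := hT.le_of_ge hins (Finset.subset_insert x T)
  exact hxT (h1 (Finset.mem_insert_self x T))

lemma card_mulAut_le (M : Type*) [Group M] [Finite M] :
    Nat.card (MulAut M) ≤ Nat.card M ^ Nat.log 2 (Nat.card M) := by
  classical
  obtain ⟨T, hT, hcard⟩ := exists_gen M
  have h1 : Nat.card (MulAut M) ≤ Nat.card (T → M) := by
    refine Nat.card_le_card_of_injective (fun (f : MulAut M) (t : T) => f t) ?_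
    intro f g h
    have h2 : f.toMonoidHom = g.toMonoidHom := by
      refine MonoidHom.eq_of_eqOn_dense hT ?_
      intro t ht
      exact congrFun h ⟨t, ht⟩
    ext x
    exact DFunLike.congr_fun h2 x
  refine h1.trans ?_
  rw [Nat.card_fun]
  have h3 : Nat.card T = T.card := by
    rw [Nat.card_eq_fintype_card, Fintype.card_coe]
  rw [h3]
  refine Nat.pow_le_pow_right Nat.card_pos ?_
  exact Nat.le_log_of_pow_le (by norm_num) hcard

end Pool.Agent.Helper503_AD
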