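import Mathlib
import Pool.Agent.W446.AS.Frame
import Pool.Agent.Helper503_AD.Num

/-!
# Frames inside a solvable normal subgroup
-/

set_option autoImplicit false
set_option linter.unusedSectionVars false

namespace Pool.Agent.Helper503_AD

open Pool.Agent.H302R2 Pool.Agent.H541R3.ART Pool.Agent.W446.AS

variable {G : Type} [Group G] [Finite G]

lemma eq_bot_of_perfect {Q : Type} [Group Q] {M : Subgroup Q} (hM : Group.IsSolvable M)
    (h : ⁅M, M⁆ = M) : M = ⊥ := by
  by_contra hne
  have hnt : Nontrivial M := (Subgroup.nontrivial_iff_ne_bot M).mpr hne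
  have h1 := Group.IsSolvable.commutator_lt_top_of_nontrivial M
  have h2 : (commutator M).map M.subtype = ⁅M, M⁆ := M.map_subtype_commutator
  rw [h] at h2
  have h3 : commutator M = ⊤ := by
    apply Subgroup.map_injective M.subtype_injective
    rw [h2, ← MonoidHom.range_eq_map, Subgroup.range_subtype]
  exact h1.ne h3

/-- existence of a frame inside a solvable normal subgroup -/
theorem exists_frameS (S : Subgroup G) (hSn : S.Normal) (hS : Group.IsSolvable S)
    (hZS : Subgroup.center G ≤ S)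
    (hab : ∀ A : Subgroup G, A.Normal → A ≤ S →
      (∀ a ∈ A, ∀ b ∈ A, a * b = b * a) → A ≤ Subgroup.center G) :
    ∃ F : Subgroup G, F.Normal ∧ Subgroup.center G ≤ F ∧ F ≤ S ∧
      (∀ x ∈ F, ∀ y ∈ F, x * y * x⁻¹ * y⁻¹ ∈ Subgroup.center G) ∧
      ∀ x ∈ S, (∀ y ∈ F, x * y = y * x) → x ∈ Subgroup.center G := by
  classical
  let Z := Subgroup.center G
  let A : Set (Subgroup G) := {N | N.Normal ∧ Z ≤ N ∧ N ≤ S ∧
    ∀ x ∈ N, ∀ y ∈ N, x * y * x⁻¹ * y⁻¹ ∈ Z}
  have hA : A.Nonempty := by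
    refine ⟨Z, inferInstance, le_rfl, hZS, fun x hx y hy => ?_⟩
    rw [← Subgroup.mem_center_iff.mp hx y, mul_inv_cancel_right, mul_inv_cancel]
    exact Z.one_mem
  obtain ⟨F, hF⟩ := (Set.toFinite A).exists_maximal hA
  obtain ⟨hFn, hZF, hFS, hFc⟩ := hF.prop
  let C : Subgroup G := S ⊓ Subgroup.centralizer (F : Set G)
  have hC : ∀ x, x ∈ C ↔ x ∈ S ∧ ∀ y ∈ F, y * x = x * y := by
    intro x
    rw [Subgroup.mem_inf, Subgroup.mem_centralizer_iff]
    rfl
  have hFcent : ∀ x ∈ F, (∀ y ∈ F, x * y = y * x) → x ∈ Z := by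
    let C' : Subgroup G := F ⊓ Subgroup.centralizer (F : Set G)
    have hC' : ∀ x, x ∈ C' ↔ x ∈ F ∧ ∀ y ∈ F, y * x = x * y := by
      intro x
      rw [Subgroup.mem_inf, Subgroup.mem_centralizer_iff]
      rfl
    have hCn' : C'.Normal := by
      have := centralizer_normal hFn
      exact Subgroup.normal_inf_normal _ _
    intro x hx h
    refine hab C' hCn' (inf_le_left.trans hFS) (fun a ha b hb => ?_)
      ((hC' x).mpr ⟨hx, fun y hy => (h y hy).symm⟩)
    exact ((hC' b).mp hb).2 a ((hC' a).mp ha).1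
  have hCn : C.Normal := by
    have := centralizer_normal hFn
    exact Subgroup.normal_inf_normal _ _
  have hZC : Z ≤ C := fun z hz => (hC z).mpr ⟨hZS hz, fun y _ => Subgroup.mem_center_iff.mp hz y⟩
  have hCZ : C ≤ Z := by
    by_contra hcon
    let π : G →* G ⧸ Z := QuotientGroup.mk' Z
    have hπ : Function.Surjective π := QuotientGroup.mk'_surjective Z
    have hk : ∀ x : G, π x = 1 ↔ x ∈ Z := fun x => QuotientGroup.eq_one_iff x
    obtain ⟨M, p, hMC, hMn, hM0, hp, hMc, -, -⟩ := exists_min_normal_of (G ⧸ Z) (C.map π)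
      (hCn.map π hπ) (by
        intro h
        apply hcon
        intro x hx
        have h1 : π x ∈ C.map π := ⟨x, hx, rfl⟩
        rw [h, Subgroup.mem_bot] at h1
        exact (hk x).mp h1) (by
        intro M hMC hMn hM0 hmin
        have hMS : M ≤ S.map π := hMC.trans (Subgroup.map_mono inf_le_left)
        have hSs : Group.IsSolvable (S.map π) := by
          have := hS
          exact Group.isSolvable_of_surjective (f := π.subgroupMap S) (π.subgroupMap_surjective S)
        have hMs : Group.IsSolvable M := by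
          have := hSs
          exact Group.isSolvable_of_isSolvable_injective (f := Subgroup.inclusion hMS)
            (Subgroup.inclusion_injective hMS)
        rcases hmin ⁅M, M⁆ inferInstance (Subgroup.commutator_le_right M M) with h | h
        · intro x hx y hy
          have h1 := Subgroup.commutator_mem_commutator hx hy
          rw [h, Subgroup.mem_bot] at h1
          exact commutatorElement_eq_one_iff_mul_comm.mp h1
        · exact absurd (eq_bot_of_perfect hMs h) hM0)
    let E := M.comap π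
    have hE : ∀ x, x ∈ E ↔ π x ∈ M := fun x => Iff.rfl
    have hEn : E.Normal := hMn.comap π
    have hZE : Z ≤ E := fun x hx => by rw [hE, (hk x).mpr hx]; exact M.one_mem
    have hEC : E ≤ C := by
      intro x hx
      obtain ⟨c, hc, h1⟩ := hMC hx
      have h2 : c⁻¹ * x ∈ Z := by
        rw [← hk, map_mul, map_inv, h1, inv_mul_cancel]
      have h3 := C.mul_mem hc (hZC h2)
      rwa [mul_inv_cancel_left] at h3
    have hEc : ∀ x ∈ E, ∀ y ∈ E, x * y * x⁻¹ * y⁻¹ ∈ Z := by
      intro x hx y hy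
      rw [← hk, map_mul, map_mul, map_mul, hMc _ hx _ hy, map_inv, map_inv]
      group
    have hmem : F ⊔ E ∈ A := by
      refine ⟨inferInstance, hZF.trans le_sup_left, sup_le hFS (hEC.trans inf_le_left), ?_⟩
      intro x hx y hy
      rw [Subgroup.mem_sup_of_normal_left] at hx hy
      obtain ⟨f, hf, e, he, rfl⟩ := hx
      obtain ⟨f', hf', e', he', rfl⟩ := hy
      have h1 := ((hC e).mp (hEC he)).2 f' hf'
      have h2 := ((hC e').mp (hEC he')).2 f hf
      have h3 := ((hC e').mp (hEC he')).2 f' hf'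
      have h4 := ((hC e).mp (hEC he)).2 f hf
      have h5 := ((hC e⁻¹).mp (C.inv_mem (hEC he))).2 f hf
      have h6 := ((hC e'⁻¹).mp (C.inv_mem (hEC he'))).2 f' hf'
      have h7 := Subgroup.mem_center_iff.mp (hEc e he e' he')
      have h8 : (f * e) * (f' * e') * (f * e)⁻¹ * (f' * e')⁻¹
          = (f * f' * f⁻¹ * f'⁻¹) * (e * e' * e⁻¹ * e'⁻¹) := by
        calc (f * e) * (f' * e') * (f * e)⁻¹ * (f' * e')⁻¹
            = f * (e * f') * e' * e⁻¹ * f⁻¹ * e'⁻¹ * f'⁻¹ := by group
          _ = f * (f' * e) * e' * e⁻¹ * f⁻¹ * e'⁻¹ * f'⁻¹ := by rw [h1]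
          _ = f * f' * (e * e' * e⁻¹ * e'⁻¹) * (e' * f⁻¹) * e'⁻¹ * f'⁻¹ := by group
          _ = f * f' * (e * e' * e⁻¹ * e'⁻¹) * (f⁻¹ * e') * e'⁻¹ * f'⁻¹ := by
              have h9 : e' * f⁻¹ = f⁻¹ * e' := by
                rw [eq_inv_mul_iff_mul_eq, ← mul_assoc, h2, mul_assoc, mul_inv_cancel, mul_one]
              rw [h9]
          _ = f * f' * ((e * e' * e⁻¹ * e'⁻¹) * (f⁻¹ * f'⁻¹)) := by group
          _ = f * f' * ((f⁻¹ * f'⁻¹) * (e * e' * e⁻¹ * e'⁻¹)) := by rw [h7]
          _ = _ := by group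
      rw [h8]
      exact Z.mul_mem (hFc f hf f' hf') (hEc e he e' he')
    have h1 := hF.le_of_ge hmem le_sup_left
    have hEF : E ≤ F := le_sup_right.trans h1
    apply hM0
    rw [eq_bot_iff]
    intro y hy
    obtain ⟨x, rfl⟩ := hπ y
    have hx : x ∈ E := hy
    have h2 : x ∈ Z := hFcent x (hEF hx) fun y hy => (((hC x).mp (hEC hx)).2 y hy).symm
    rw [Subgroup.mem_bot]
    exact (hk x).mpr h2
  exact ⟨F, hFn, hZF, hFS, hFc, fun x hx h => hCZ ((hC x).mpr ⟨hx, fun y hy => (h y hy).symm⟩)⟩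

/-- elements acting trivially on `F / Z` -/
lemma mem_of_trivS {S F : Subgroup G} (hZF : Subgroup.center G ≤ F) (hFS : F ≤ S)
    (hcomm : ∀ x ∈ F, ∀ y ∈ F, x * y * x⁻¹ * y⁻¹ ∈ Subgroup.center G)
    (hcentS : ∀ x ∈ S, (∀ y ∈ F, x * y = y * x) → x ∈ Subgroup.center G)
    {ω : Subgroup.center G →* ℂˣ} (hω : Function.Injective ω) {x : G} (hxS : x ∈ S)
    (hx : ∀ e ∈ F, x * e * x⁻¹ * e⁻¹ ∈ Subgroup.center G) : x ∈ F := by
  classical
  have hcent : ∀ x ∈ F, (∀ y ∈ F, x * y = y * x) → x ∈ Subgroup.center G :=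
    fun x hx h => hcentS x (hFS hx) h
  let j : Subgroup.center F →* Subgroup.center G :=
    { toFun := fun x => ⟨(x : F), (center_sub hcent x).mp x.2⟩
      map_one' := rfl
      map_mul' := fun _ _ => rfl }
  have hj : Function.Injective j := by
    intro a b h
    have h1 : ((a : F) : G) = ((b : F) : G) := congrArg (fun y : Subgroup.center G => (y : G)) h
    exact Subtype.ext (Subtype.ext h1)
  have hE' : ∀ x y : F, x * y * x⁻¹ * y⁻¹ ∈ Subgroup.center F := fun x y =>
    (center_sub hcent _).mpr (hcomm x x.2 y y.2)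
  let ψ : F →* ℂˣ :=
    { toFun := fun e => ω ⟨x * e * x⁻¹ * (e : G)⁻¹, hx e e.2⟩
      map_one' := by
        have : (⟨x * ((1 : F) : G) * x⁻¹ * ((1 : F) : G)⁻¹, hx _ (1 : F).2⟩ : Subgroup.center G)
            = 1 := by
          apply Subtype.ext
          simp
        rw [this, map_one]
      map_mul' := by
        intro a b
        rw [← map_mul]
        congr 1
        apply Subtype.ext
        change x * ((a : G) * b) * x⁻¹ * ((a : G) * b)⁻¹
          = (x * a * x⁻¹ * (a : G)⁻¹) * (x * b * x⁻¹ * (b : G)⁻¹)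
        have h1 := Subgroup.mem_center_iff.mp (hx b b.2) (a : G)⁻¹
        calc x * ((a : G) * b) * x⁻¹ * ((a : G) * b)⁻¹
            = x * a * x⁻¹ * ((x * b * x⁻¹ * (b : G)⁻¹) * (a : G)⁻¹) := by group
          _ = _ := by rw [← h1]; group }
  obtain ⟨y, hy⟩ := br_surj hE' (ω.comp j) (hω.comp hj) ψ (by
    intro z hz
    have h1 := (center_sub hcent z).mp hz
    have h2 : (⟨x * (z : G) * x⁻¹ * (z : G)⁻¹, hx z z.2⟩ : Subgroup.center G) = 1 := by
      apply Subtype.ext
      change x * (z : G) * x⁻¹ * (z : G)⁻¹ = 1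
      rw [Subgroup.mem_center_iff.mp h1 x]
      group
    change ω ⟨x * (z : G) * x⁻¹ * (z : G)⁻¹, hx z z.2⟩ = 1
    rw [h2, map_one])
  have h1 : (y : G)⁻¹ * x ∈ Subgroup.center G := by
    refine hcentS _ (S.mul_mem (S.inv_mem (hFS y.2)) hxS) ?_
    intro e he
    have h2 := hy ⟨e, he⟩
    rw [br_apply] at h2
    have h3 := hω h2
    have h4 : (y : G) * e * (y : G)⁻¹ * e⁻¹ = x * e * x⁻¹ * e⁻¹ :=
      congrArg (fun z : Subgroup.center G => (z : G)) h3
    have h5 : (y : G) * e * (y : G)⁻¹ = x * e * x⁻¹ := mul_right_cancel h4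
    have h6 : e = (y : G)⁻¹ * x * e * x⁻¹ * y := by
      calc e = (y : G)⁻¹ * ((y : G) * e * (y : G)⁻¹) * y := by group
        _ = _ := by rw [h5]; group
    calc (y : G)⁻¹ * x * e = ((y : G)⁻¹ * x * e * x⁻¹ * y) * ((y : G)⁻¹ * x) := by group
      _ = e * ((y : G)⁻¹ * x) := by rw [← h6]
  have h2 := F.mul_mem y.2 (hZF h1)
  rwa [mul_inv_cancel_left] at h2

/-- the order of a solvable normal subgroup in terms of its frame -/
theorem card_leS {S F : Subgroup G} (hFn : F.Normal) (hZF : Subgroup.center G ≤ F) (hFS : F ≤ S)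
    (hcomm : ∀ x ∈ F, ∀ y ∈ F, x * y * x⁻¹ * y⁻¹ ∈ Subgroup.center G)
    (hcentS : ∀ x ∈ S, (∀ y ∈ F, x * y = y * x) → x ∈ Subgroup.center G)
    {ω : Subgroup.center G →* ℂˣ} (hω : Function.Injective ω) {m : ℕ}
    (hm : Nat.card F = m * Nat.card (Subgroup.center G)) :
    Nat.card S ≤ m ^ Nat.log 2 m * Nat.card F := by
  classical
  let Z := Subgroup.center G
  let π : G →* G ⧸ Z := QuotientGroup.mk' Z
  have hπ : Function.Surjective π := QuotientGroup.mk'_surjective Z
  have hk : ∀ x : G, π x = 1 ↔ x ∈ Z := fun x => QuotientGroup.eq_one_iff x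
  let M : Subgroup (G ⧸ Z) := F.map π
  have hMn : M.Normal := hFn.map π hπ
  let α : S →* MulAut M := ((MulAut.conjNormal (G := G ⧸ Z) (H := M)).comp π).comp S.subtype
  have hα : ∀ (x : S) (e : M), ((α x e : M) : G ⧸ Z) = π x * e * (π x)⁻¹ := by
    intro x e
    exact MulAut.conjNormal_apply (π x) e
  have hker : ∀ x : S, x ∈ α.ker → (x : G) ∈ F := by
    intro x hx
    refine mem_of_trivS hZF hFS hcomm hcentS hω x.2 ?_
    intro e he
    have h1 : α x ⟨π e, e, he, rfl⟩ = ⟨π e, e, he, rfl⟩ := by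
      rw [MonoidHom.mem_ker.mp hx, MulAut.one_apply]
    have h2 := congrArg (fun y : M => (y : G ⧸ Z)) h1
    simp only [hα] at h2
    change _ ∈ Z
    rw [← hk, map_mul, map_mul, map_mul, map_inv, map_inv, h2, mul_inv_cancel]
  have hcardM : Nat.card M = m := by
    let q : F →* M := π.subgroupMap F
    have hq : Function.Surjective q := π.subgroupMap_surjective F
    have h1 : q.ker = Z.subgroupOf F := by
      ext x
      rw [MonoidHom.mem_ker, Subgroup.mem_subgroupOf, ← hk]
      exact Subtype.ext_iff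
    have hZpos : 0 < Nat.card Z := Nat.card_pos
    apply Nat.eq_of_mul_eq_mul_right hZpos
    change _ = m * Nat.card (Subgroup.center G)
    rw [← hm, Subgroup.card_eq_card_quotient_mul_card_subgroup q.ker,
      Nat.card_congr (QuotientGroup.quotientKerEquivOfSurjective q hq).toEquiv, h1,
      Nat.card_congr (Subgroup.subgroupOfEquivOfLe hZF).toEquiv]
  have h1 : Nat.card S = Nat.card α.range * Nat.card α.ker := by
    rw [← Nat.card_congr (QuotientGroup.quotientKerEquivRange α).toEquiv]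
    exact Subgroup.card_eq_card_quotient_mul_card_subgroup _
  have h2 : Nat.card α.range ≤ m ^ Nat.log 2 m := by
    have h3 := card_mulAut_le M
    rw [hcardM] at h3
    exact (Subgroup.card_le_card_group _).trans h3
  have h3 : Nat.card α.ker ≤ Nat.card F := by
    refine Nat.card_le_card_of_injective (fun x : α.ker => (⟨((x : S) : G), hker x x.2⟩ : F)) ?_
    intro x y hxy
    have h4 : ((x : S) : G) = ((y : S) : G) := congrArg (fun z : F => (z : G)) hxy
    exact Subtype.ext (Subtype.ext h4)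
  rw [h1]
  exact Nat.mul_le_mul h2 h3

end Pool.Agent.Helper503_AD
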