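import Mathlib
import Pool.Agent.R683.OrdE

/-!
# The socle of a solvable group over a normal subgroup
-/

set_option autoImplicit false
set_option linter.unusedSectionVars false

namespace Pool.Agent.Helper503_AD

open Pool.Agent.R683.Ord

variable {Γ : Type} [Group Γ]

/-- minimal normal subgroups over `B` -/
def IsMin (B W : Subgroup Γ) : Prop :=
  W.Normal ∧ B < W ∧ ∀ K : Subgroup Γ, K.Normal → B ≤ K → K ≤ W → K = B ∨ K = W

/-- the socle over `B` -/
def soc (B : Subgroup Γ) : Subgroup Γ := B ⊔ sSup {W | IsMin B W}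

lemma le_soc (B : Subgroup Γ) : B ≤ soc B := le_sup_left

lemma IsMin.le_soc {B W : Subgroup Γ} (h : IsMin B W) : W ≤ soc B :=
  (le_sSup (a := W) (s := {W | IsMin B W}) h).trans le_sup_right

lemma soc_le {B N : Subgroup Γ} (hB : B ≤ N) (h : ∀ W, IsMin B W → W ≤ N) : soc B ≤ N :=
  sup_le hB (sSup_le h)

lemma IsMin.map {B W : Subgroup Γ} (h : IsMin B W) (φ : Γ ≃* Γ) (hφ : B.map φ.toMonoidHom = B) :
    IsMin B (W.map φ.toMonoidHom) := by
  obtain ⟨h1, h2, h3⟩ := h
  have hinj : Function.Injective (Subgroup.map φ.toMonoidHom) :=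
    Subgroup.map_injective φ.injective
  have hcm : ∀ K : Subgroup Γ, (K.comap φ.toMonoidHom).map φ.toMonoidHom = K :=
    fun K => Subgroup.map_comap_eq_self_of_surjective φ.surjective K
  refine ⟨h1.map φ.toMonoidHom φ.surjective, ?_, ?_⟩
  · refine lt_of_le_of_ne ?_ ?_
    · rw [← hφ]
      exact Subgroup.map_mono h2.le
    · intro h
      rw [← hφ] at h
      exact h2.ne (hinj h)
  · intro K hK hBK hKW
    have h4 : (K.comap φ.toMonoidHom).Normal := hK.comap _
    have h5 : B ≤ K.comap φ.toMonoidHom := by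
      rw [← Subgroup.map_le_iff_le_comap, hφ]
      exact hBK
    have h6 : K.comap φ.toMonoidHom ≤ W := by
      intro x hx
      obtain ⟨w, hw, hwx⟩ := hKW hx
      rw [← φ.injective hwx]
      exact hw
    rcases h3 _ h4 h5 h6 with h | h
    · left
      rw [← hcm K, h, hφ]
    · right
      rw [← hcm K, h]

lemma soc_map {B : Subgroup Γ} (φ : Γ ≃* Γ) (hφ : B.map φ.toMonoidHom = B) :
    (soc B).map φ.toMonoidHom ≤ soc B := by
  rw [Subgroup.map_le_iff_le_comap]
  refine soc_le ?_ ?_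
  · rw [← Subgroup.map_le_iff_le_comap, hφ]
    exact le_soc B
  · intro W hW
    rw [← Subgroup.map_le_iff_le_comap]
    exact (hW.map φ hφ).le_soc

lemma soc_normal {B : Subgroup Γ} (hB : B.Normal) : (soc B).Normal := by
  constructor
  intro x hx g
  have h1 : B.map (MulAut.conj g : Γ ≃* Γ).toMonoidHom = B := by
    apply le_antisymm
    · rintro _ ⟨b, hb, rfl⟩
      exact hB.conj_mem b hb g
    · intro b hb
      refine ⟨g⁻¹ * b * g⁻¹⁻¹, hB.conj_mem b hb g⁻¹, ?_⟩
      change g * (g⁻¹ * b * g⁻¹⁻¹) * g⁻¹ = b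
      group
  exact soc_map (MulAut.conj g) h1 ⟨x, hx, rfl⟩

variable [Finite Γ] [Group.IsSolvable Γ]

lemma IsMin.comm_self {B W : Subgroup Γ} (hB : B.Normal) (h : IsMin B W) :
    ∀ a ∈ W, ∀ b ∈ W, a * b * a⁻¹ * b⁻¹ ∈ B := by
  obtain ⟨h1, h2, h3⟩ := h
  obtain ⟨N, hN, hBN, hNW, -, hcomm⟩ := exists_min B W hB h1 h2
  rcases h3 N hN hBN.le hNW with h | h
  · exact absurd h.symm hBN.ne
  · rw [h] at hcomm
    exact hcomm

lemma IsMin.comm {B W W' : Subgroup Γ} (hB : B.Normal) (h : IsMin B W) (h' : IsMin B W') :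
    ∀ a ∈ W, ∀ b ∈ W', a * b * a⁻¹ * b⁻¹ ∈ B := by
  by_cases he : W = W'
  · rw [← he]
    exact h.comm_self hB
  obtain ⟨h1, h2, h3⟩ := id h
  obtain ⟨h1', h2', h3'⟩ := id h'
  have hn : (W ⊓ W').Normal := inferInstance
  have hcap : W ⊓ W' = B := by
    rcases h3 (W ⊓ W') hn (le_inf h2.le h2'.le) inf_le_left with h4 | h4
    · exact h4
    · exfalso
      have h5 : W ≤ W' := by rw [← h4]; exact inf_le_right
      rcases h3' W h1 h2.le h5 with h6 | h6
      · exact h2.ne h6.symm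
      · exact he h6
  intro a ha b hb
  rw [← hcap, Subgroup.mem_inf]
  constructor
  · have h4 := W.mul_mem ha (h1.conj_mem _ (W.inv_mem ha) b)
    have h5 : a * (b * a⁻¹ * b⁻¹) = a * b * a⁻¹ * b⁻¹ := by group
    rwa [h5] at h4
  · exact W'.mul_mem (h1'.conj_mem b hb a) (W'.inv_mem hb)

lemma soc_comm {B : Subgroup Γ} (hB : B.Normal) :
    ∀ a ∈ soc B, ∀ b ∈ soc B, a * b * a⁻¹ * b⁻¹ ∈ B := by
  have hBl : ∀ a ∈ B, ∀ b : Γ, a * b * a⁻¹ * b⁻¹ ∈ B := by
    intro a ha b
    have h4 := B.mul_mem ha (hB.conj_mem _ (B.inv_mem ha) b)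
    have h5 : a * (b * a⁻¹ * b⁻¹) = a * b * a⁻¹ * b⁻¹ := by group
    rwa [h5] at h4
  have hs : ∀ a b : Γ, a * b * a⁻¹ * b⁻¹ ∈ B → b * a * b⁻¹ * a⁻¹ ∈ B := by
    intro a b h
    have h1 := B.inv_mem h
    have h2 : (a * b * a⁻¹ * b⁻¹)⁻¹ = b * a * b⁻¹ * a⁻¹ := by group
    rwa [h2] at h1
  have h1 : ∀ W', IsMin B W' → ∀ a ∈ soc B, ∀ b ∈ W', a * b * a⁻¹ * b⁻¹ ∈ B := by
    intro W' hW'
    have h2 : soc B ≤ CE B W' hW'.1 := by
      refine soc_le ?_ ?_
      · intro a ha b _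
        exact hBl a ha b
      · intro W hW a ha b hb
        exact hW.comm hB hW' a ha b hb
    exact fun a ha => h2 ha
  have h3 : soc B ≤ CE B (soc B) (soc_normal hB) := by
    refine soc_le ?_ ?_
    · intro a ha b _
      exact hBl a ha b
    · intro W hW a ha b hb
      exact hs _ _ (h1 W hW b hb a ha)
  exact fun a ha => h3 ha

lemma card_sup_mul (N W : Subgroup Γ) (hW : W.Normal) :
    Nat.card (N ⊔ W : Subgroup Γ) * Nat.card (N ⊓ W : Subgroup Γ) = Nat.card N * Nat.card W := by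
  have h1 := card_mul_relIndex_of_le (Γ := Γ) (H := W) (K := N ⊔ W) le_sup_right
  have h2 : W.relIndex (N ⊔ W) = W.relIndex N := Subgroup.relIndex_sup_right N W
  have h3 := card_mul_relIndex_of_le (Γ := Γ) (H := N ⊓ W) (K := N) inf_le_left
  have h4 : (N ⊓ W).relIndex N = W.relIndex N := by
    rw [inf_comm, Subgroup.inf_relIndex_right]
  rw [h2] at h1
  rw [h4] at h3
  rw [← h1, ← h3]
  ring

/-- the action on the socle -/
theorem soc_bound {B : Subgroup Γ} (hB : B.Normal) :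
    Nat.card Γ ^ 5 * Nat.card B ^ 12 ≤
      Nat.card (CE B (soc B) (soc_normal hB)) ^ 5 * Nat.card (soc B) ^ 12 := by
  classical
  let A : Set (Subgroup Γ) := {N | ∃ hN : N.Normal, B ≤ N ∧ N ≤ soc B ∧
    Nat.card Γ ^ 5 * Nat.card B ^ 12 ≤ Nat.card (CE B N hN) ^ 5 * Nat.card N ^ 12}
  have hA : A.Nonempty := by
    refine ⟨B, hB, le_rfl, le_soc B, ?_⟩
    have h1 : CE B B hB = ⊤ := by
      rw [eq_top_iff]
      intro x _ a ha
      exact B.mul_mem (hB.conj_mem a ha x) (B.inv_mem ha)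
    rw [h1, Subgroup.card_top]
  obtain ⟨N, hN⟩ := (Set.toFinite A).exists_maximal hA
  obtain ⟨hNn, hBN, hNs, hNc⟩ := hN.prop
  have hle : soc B ≤ N := by
    refine soc_le hBN ?_
    intro W hW
    by_contra hcon
    obtain ⟨h1, h2, h3⟩ := id hW
    have hn : (N ⊓ W).Normal := inferInstance
    have hcap : N ⊓ W = B := by
      rcases h3 (N ⊓ W) hn (le_inf hBN h2.le) inf_le_right with h4 | h4
      · exact h4
      · exfalso
        apply hcon
        rw [← h4]
        exact inf_le_left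
    have hcb := chief_bound (lb_all (Nat.card W)) B W hB h1 h2 h3 (hW.comm_self hB)
      (Nat.le_mul_of_pos_right _ Nat.card_pos)
    have hcb' : Nat.card Γ ^ 5 * Nat.card B ^ 12 ≤
        Nat.card (CE B W h1) ^ 5 * Nat.card W ^ 12 := by
      refine le_trans ?_ hcb
      refine Nat.mul_le_mul_right _ (Nat.pow_le_pow_left ?_ 5)
      omega
    have hsn : (N ⊔ W).Normal := inferInstance
    have hinf : CE B N hNn ⊓ CE B W h1 ≤ CE B (N ⊔ W) hsn := by
      rintro x ⟨hx1, hx2⟩ a ha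
      rw [Subgroup.mem_sup_of_normal_left] at ha
      obtain ⟨n, hn, w, hw, rfl⟩ := ha
      have h4 := hx1 n hn
      have h5 := hx2 w hw
      have h6 := hB.conj_mem _ h5 n
      have h7 := B.mul_mem h4 h6
      have h8 : (x * n * x⁻¹ * n⁻¹) * (n * (x * w * x⁻¹ * w⁻¹) * n⁻¹)
          = x * (n * w) * x⁻¹ * (n * w)⁻¹ := by group
      rwa [h8] at h7
    have hmem : N ⊔ W ∈ A := by
      refine ⟨hsn, hBN.trans le_sup_left, sup_le hNs hW.le_soc, ?_⟩
      have h4 := card_inf_mul (CE B N hNn) (CE B W h1)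
      have h5 := card_sup_mul N W h1
      rw [hcap] at h5
      have hpos : 0 < Nat.card Γ ^ 5 * Nat.card B ^ 12 := by
        have h6 : 0 < Nat.card Γ := Nat.card_pos
        have h7 : 0 < Nat.card B := Nat.card_pos
        positivity
      refine Nat.le_of_mul_le_mul_right ?_ hpos
      calc Nat.card Γ ^ 5 * Nat.card B ^ 12 * (Nat.card Γ ^ 5 * Nat.card B ^ 12)
          ≤ (Nat.card (CE B N hNn) ^ 5 * Nat.card N ^ 12) *
            (Nat.card (CE B W h1) ^ 5 * Nat.card W ^ 12) := Nat.mul_le_mul hNc hcb'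
        _ = (Nat.card (CE B N hNn) * Nat.card (CE B W h1)) ^ 5 *
            (Nat.card N * Nat.card W) ^ 12 := by ring
        _ ≤ (Nat.card (CE B N hNn ⊓ CE B W h1 : Subgroup Γ) * Nat.card Γ) ^ 5 *
            (Nat.card N * Nat.card W) ^ 12 :=
            Nat.mul_le_mul_right _ (Nat.pow_le_pow_left h4 5)
        _ ≤ (Nat.card (CE B (N ⊔ W) hsn) * Nat.card Γ) ^ 5 *
            (Nat.card (N ⊔ W : Subgroup Γ) * Nat.card B) ^ 12 := by
            rw [h5]
            exact Nat.mul_le_mul_right _ (Nat.pow_le_pow_left (Nat.mul_le_mul_right _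
              (Subgroup.card_le_of_le hinf)) 5)
        _ = _ := by ring
    exact hcon (le_sup_right.trans (hN.le_of_ge hmem le_sup_left))
  have heq : N = soc B := le_antisymm hNs hle
  subst heq
  exact hNc

end Pool.Agent.Helper503_AD
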