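import Mathlib
import Pool.Agent.Helper503_AD.FrameS
import Pool.Agent.Helper503_AD.Soc

/-!
# The socle of a solvable normal subgroup over the centre
-/

set_option autoImplicit false
set_option linter.unusedSectionVars false

namespace Pool.Agent.Helper503_AD

open Pool.Agent.H302R2 Pool.Agent.H541R3.ART Pool.Agent.W446.AS Pool.Agent.R683.Ord

variable {G : Type} [Group G] [Finite G]

/-- a frame inside a solvable normal subgroup, with the bound for its order -/
theorem exists_frameP (S : Subgroup G) (hSn : S.Normal) (hS : Group.IsSolvable S)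
    (hZS : Subgroup.center G ≤ S)
    (hab : ∀ A : Subgroup G, A.Normal → A ≤ S →
      (∀ a ∈ A, ∀ b ∈ A, a * b = b * a) → A ≤ Subgroup.center G)
    {ω : Subgroup.center G →* ℂˣ} (hω : Function.Injective ω) :
    ∃ F : Subgroup G, F.Normal ∧ Subgroup.center G ≤ F ∧ F ≤ S ∧
      (∀ x ∈ F, ∀ y ∈ F, x * y * x⁻¹ * y⁻¹ ∈ Subgroup.center G) ∧
      (∀ x ∈ S, (∀ y ∈ F, x * y = y * x) → x ∈ Subgroup.center G) ∧
      Nat.card S ^ 5 * Nat.card (Subgroup.center G) ^ 12 ≤ Nat.card F ^ 17 := by
  classical
  let B : Subgroup S := (Subgroup.center G).subgroupOf S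
  have hBmem : ∀ x : S, x ∈ B ↔ (x : G) ∈ Subgroup.center G := fun x => Subgroup.mem_subgroupOf
  have hBc : ∀ x ∈ B, ∀ y : S, x * y = y * x := by
    intro x hx y
    apply Subtype.ext
    exact (Subgroup.mem_center_iff.mp ((hBmem x).mp hx) y).symm
  have hBn : B.Normal := by
    constructor
    intro b hb g
    have h1 : g * b * g⁻¹ = b := by
      rw [← hBc b hb g, mul_inv_cancel_right]
    rw [h1]
    exact hb
  let E : Subgroup S := soc B
  have hEn : E.Normal := soc_normal hBn
  let F : Subgroup G := E.map S.subtype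
  have hFmem : ∀ x : S, x ∈ E → (x : G) ∈ F := fun x hx => ⟨x, hx, rfl⟩
  have hFn : F.Normal := by
    constructor
    rintro _ ⟨x, hx, rfl⟩ g
    let φ : S ≃* S := MulAut.conjNormal g
    have hφ : ∀ y : S, ((φ y : S) : G) = g * y * g⁻¹ := fun y => MulAut.conjNormal_apply g y
    have hfix : ∀ y ∈ B, φ y = y := by
      intro y hy
      apply Subtype.ext
      rw [hφ, Subgroup.mem_center_iff.mp ((hBmem y).mp hy) g, mul_inv_cancel_right]
    have hφB : B.map φ.toMonoidHom = B := by
      apply le_antisymm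
      · rintro _ ⟨y, hy, rfl⟩
        change φ y ∈ B
        rw [hfix y hy]
        exact hy
      · intro y hy
        exact ⟨y, hy, hfix y hy⟩
    have h1 := soc_map φ hφB ⟨x, hx, rfl⟩
    refine ⟨φ x, h1, ?_⟩
    exact hφ x
  have hZF : Subgroup.center G ≤ F := fun z hz => ⟨⟨z, hZS hz⟩, le_soc B hz, rfl⟩
  have hFS : F ≤ S := by
    rintro _ ⟨x, -, rfl⟩
    exact x.2
  have hcomm : ∀ x ∈ F, ∀ y ∈ F, x * y * x⁻¹ * y⁻¹ ∈ Subgroup.center G := by
    rintro _ ⟨x, hx, rfl⟩ _ ⟨y, hy, rfl⟩
    exact soc_comm hBn x hx y hy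
  have hcentS : ∀ x ∈ S, (∀ y ∈ F, x * y = y * x) → x ∈ Subgroup.center G := by
    let X : Subgroup S := Subgroup.centralizer (E : Set S)
    have hXn : X.Normal := inferInstance
    have hBX : B ≤ X := by
      intro b hb
      rw [Subgroup.mem_centralizer_iff]
      intro y _
      exact (hBc b hb y).symm
    have hXB : X ≤ B := by
      by_contra hnot
      obtain ⟨N, hNn, hBN, hNX, hmin, -⟩ := exists_min B X hBn hXn (lt_of_le_not_ge hBX hnot)
      have hNE : N ≤ E := IsMin.le_soc ⟨hNn, hBN, hmin⟩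
      -- the abelian normal subgroup
      let A : Subgroup G := F ⊓ Subgroup.centralizer (F : Set G)
      have hA : A ≤ Subgroup.center G := by
        refine hab A ?_ (inf_le_left.trans hFS) ?_
        · have := centralizer_normal hFn
          exact Subgroup.normal_inf_normal _ _
        · intro a ha b hb
          exact Subgroup.mem_centralizer_iff.mp hb.2 a ha.1
      have hNB : N ≤ B := by
        intro x hx
        rw [hBmem]
        refine hA ⟨hFmem x (hNE hx), Subgroup.mem_centralizer_iff.mpr ?_⟩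
        rintro _ ⟨y, hy, rfl⟩
        have h1 := Subgroup.mem_centralizer_iff.mp (hNX hx) y hy
        exact congrArg (fun z : S => (z : G)) h1
      exact absurd hNB hBN.not_ge
    intro x hxS hx
    have h1 : (⟨x, hxS⟩ : S) ∈ X := by
      rw [Subgroup.mem_centralizer_iff]
      intro y hy
      apply Subtype.ext
      exact (hx y (hFmem y hy)).symm
    exact (hBmem _).mp (hXB h1)
  refine ⟨F, hFn, hZF, hFS, hcomm, hcentS, ?_⟩
  have hbd := soc_bound hBn
  have hCE : CE B (soc B) (soc_normal hBn) ≤ soc B := by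
    intro x hx
    have h1 : (x : G) ∈ F := by
      refine mem_of_trivS hZF hFS hcomm hcentS hω x.2 ?_
      rintro _ ⟨y, hy, rfl⟩
      exact hx y hy
    obtain ⟨y, hy, hyx⟩ := h1
    have h2 : y = x := Subtype.ext hyx
    rw [← h2]
    exact hy
  have hcB : Nat.card B = Nat.card (Subgroup.center G) :=
    Nat.card_congr (Subgroup.subgroupOfEquivOfLe hZS).toEquiv
  have hcE : Nat.card (soc B) = Nat.card F :=
    Nat.card_congr (Subgroup.equivMapOfInjective _ S.subtype S.subtype_injective).toEquiv
  have h3 := Subgroup.card_le_of_le hCE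
  rw [hcB] at hbd
  rw [hcE] at hbd h3
  calc _ ≤ _ := hbd
    _ ≤ Nat.card F ^ 5 * Nat.card F ^ 12 :=
      Nat.mul_le_mul_right _ (Nat.pow_le_pow_left h3 5)
    _ = Nat.card F ^ 17 := by rw [← pow_add]

end Pool.Agent.Helper503_AD
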