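import Mathlib
import Pool.Agent.R362.Lam

/-!
# Multiplicities of the conjugates of a linear character
-/

set_option autoImplicit false
set_option linter.unusedSectionVars false

namespace Pool.Agent.Helper503_AD

open Pool.Agent.H302R2 Pool.Agent.H541R3.ART Pool.Agent.H302R5 Pool.Agent.H302R6
  Pool.Agent.W446.AS Pool.Agent.R362

variable {G : Type} [Group G] [Finite G]

/-- the multiplicity of a linear character is invariant under conjugation -/
lemma lam_conj {θ : G → ℂ} (hθ : ∀ g h : G, θ (h * g * h⁻¹) = θ g) (A : Subgroup G) [A.Normal]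
    (μ : A →* ℂˣ) (g : G) :
    lam A (μ.comp (MulAut.conjNormal g).toMonoidHom) θ 1 = lam A μ θ 1 := by
  classical
  have : Fintype A := Fintype.ofFinite A
  rw [lam_eq, lam_eq]
  congr 1
  rw [← Equiv.sum_comp (MulAut.conjNormal g).toEquiv (fun a : A => θ (1 * a) * (((μ a)⁻¹ : ℂˣ) : ℂ))]
  refine Finset.sum_congr rfl fun a _ => ?_
  change θ (1 * a) * (((μ (MulAut.conjNormal g a))⁻¹ : ℂˣ) : ℂ)
    = θ (1 * (MulAut.conjNormal g a : A)) * (((μ (MulAut.conjNormal g a))⁻¹ : ℂˣ) : ℂ)
  rw [MulAut.conjNormal_apply, one_mul, one_mul, hθ]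

/-- the number of the conjugates times the multiplicity is at most the degree -/
lemma index_mul_le {θ : G → ℂ} (hθ : IsHeilbronn θ) (A : Subgroup G) [A.Normal]
    (hAc : ∀ a b : A, a * b = b * a) (μ : A →* ℂˣ) {r : ℕ} (hr : θ 1 = r) :
    ∃ m : ℕ, lam A μ θ 1 = m ∧ (stab A μ).index * m ≤ r := by
  classical
  have : Fintype A := Fintype.ofFinite A
  obtain ⟨ι, _, ψ, n, h⟩ := (hθ.comp A.subtype).comm_decomp hAc
  have hdec : ∀ a : A, θ a = ∑ i, (n i : ℂ) * ((ψ i a : ℂˣ) : ℂ) := h
  have hlam : ∀ ν : A →* ℂˣ, lam A ν θ 1 = ((∑ i, if ψ i = ν then n i else 0 : ℕ) : ℂ) := by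
    intro ν
    rw [lam_eq]
    have h1 : ∀ a : A, θ (1 * a) * (((ν a)⁻¹ : ℂˣ) : ℂ)
        = ∑ i, (n i : ℂ) * ((((ψ i) * ν⁻¹) a : ℂˣ) : ℂ) := by
      intro a
      rw [one_mul, hdec, Finset.sum_mul]
      refine Finset.sum_congr rfl fun i _ => ?_
      rw [MonoidHom.mul_apply, MonoidHom.inv_apply]
      push_cast
      ring
    rw [Finset.sum_congr rfl (fun a _ => h1 a), Finset.sum_comm, Finset.mul_sum]
    push_cast
    refine Finset.sum_congr rfl fun i _ => ?_
    rw [← Finset.mul_sum]
    have hA : (Nat.card A : ℂ) ≠ 0 := card_ne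
    by_cases he : ψ i = ν
    · rw [if_pos he, he]
      have h2 : ∀ a : A, (((ν * ν⁻¹) a : ℂˣ) : ℂ) = 1 := by
        intro a
        rw [MonoidHom.mul_apply, MonoidHom.inv_apply, mul_inv_cancel]
        rfl
      rw [Finset.sum_congr rfl (fun a _ => h2 a), Finset.sum_const, Finset.card_univ, nsmul_eq_mul,
        mul_one, ← Nat.card_eq_fintype_card]
      field_simp
    · rw [if_neg he]
      have h2 : ψ i * ν⁻¹ ≠ 1 := by
        intro h3
        exact he (mul_inv_eq_one.mp h3)
      have h3 := finsum_char_eq_zero (ψ i * ν⁻¹) h2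
      rw [finsum_eq_sum_of_fintype] at h3
      rw [h3, mul_zero, mul_zero]
  have hsum : (∑ i, n i) = r := by
    have h1 := hdec 1
    rw [Subgroup.coe_one, hr] at h1
    have h2 : ∀ i, (n i : ℂ) * ((ψ i 1 : ℂˣ) : ℂ) = (n i : ℂ) := by
      intro i
      rw [map_one, Units.val_one, mul_one]
    rw [Finset.sum_congr rfl (fun i _ => h2 i)] at h1
    exact_mod_cast h1.symm
  refine ⟨_, hlam μ, ?_⟩
  set m : ℕ := ∑ i, if ψ i = μ then n i else 0 with hm
  have hfin : Finite (G ⧸ stab A μ) := inferInstance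
  have : Fintype (G ⧸ stab A μ) := Fintype.ofFinite _
  let f : G ⧸ stab A μ → (A →* ℂˣ) := fun q =>
    μ.comp (MulAut.conjNormal ((Quotient.out q : G)⁻¹)).toMonoidHom
  have hf : ∀ (q : G ⧸ stab A μ) (a : A), f q a = μ (MulAut.conjNormal ((Quotient.out q : G)⁻¹) a) :=
    fun q a => rfl
  have hinj : Function.Injective f := by
    intro q q' hqq
    have h1 : (Quotient.out q : G)⁻¹ * Quotient.out q' ∈ stab A μ := by
      rw [mem_stab]
      intro a
      have h2 := DFunLike.congr_fun hqq (MulAut.conjNormal (Quotient.out q' : G) a)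
      rw [hf, hf, ← MulAut.mul_apply, ← map_mul, ← MulAut.mul_apply, ← map_mul, inv_mul_cancel,
        map_one, MulAut.one_apply] at h2
      exact h2
    have h3 := QuotientGroup.eq.mpr h1
    rwa [QuotientGroup.out_eq', QuotientGroup.out_eq'] at h3
  have hmq : ∀ q, (∑ i, if ψ i = f q then n i else 0) = m := by
    intro q
    have h1 := lam_conj hθ.conj A μ ((Quotient.out q : G)⁻¹)
    rw [hlam μ, hlam] at h1
    exact_mod_cast h1
  calc (stab A μ).index * m = ∑ q : G ⧸ stab A μ, m := by
        rw [Finset.sum_const, Finset.card_univ, smul_eq_mul, Subgroup.index, Nat.card_eq_fintype_card]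
    _ = ∑ q : G ⧸ stab A μ, ∑ i, (if ψ i = f q then n i else 0) :=
        Finset.sum_congr rfl fun q _ => (hmq q).symm
    _ = ∑ i, ∑ q : G ⧸ stab A μ, (if ψ i = f q then n i else 0) := Finset.sum_comm
    _ ≤ ∑ i, n i := by
        refine Finset.sum_le_sum fun i _ => ?_
        by_cases hex : ∃ q, ψ i = f q
        · obtain ⟨q, hq⟩ := hex
          rw [Finset.sum_eq_single q]
          · rw [if_pos hq]
          · intro q' _ hne
            rw [if_neg]
            intro h'
            exact hne (hinj (h'.symm.trans hq))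
          · intro h'
            exact absurd (Finset.mem_univ q) h'
        · push Not at hex
          rw [Finset.sum_eq_zero fun q _ => if_neg (hex q)]
          exact Nat.zero_le _
    _ = r := hsum

end Pool.Agent.Helper503_AD
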