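import Mathlib
import Pool.Agent.R362.Stab
import Pool.Agent.W446.AS.Two

/-!
# Clifford theory for subspaces
-/

set_option autoImplicit false
set_option linter.unusedSectionVars false

namespace Pool.Agent.Helper503_AD

open Pool.Agent.H302R2 Pool.Agent.H541R3.ART Pool.Agent.H302R5 Pool.Agent.H302R6
  Pool.Agent.W446.AS Pool.Agent.R362

section

variable {G : Type} [Group G] [Finite G]

/-- Clifford theory: an irreducible representation with an eigenvector of the normal subgroup `A`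
for the linear character `μ` is induced from an irreducible representation over `μ` of the
stabilizer of `μ`. -/
theorem stab_rep {V : Type} [AddCommGroup V] [Module ℂ V] [FiniteDimensional ℂ V]
    {ρ : Representation ℂ G V} (hρ : Irred ρ) (A : Subgroup G) [A.Normal] (μ : A →* ℂˣ)
    (v₀ : V) (hv₀ : v₀ ≠ 0) (hμ : ∀ a : A, ρ a v₀ = ((μ a : ℂˣ) : ℂ) • v₀) :
    ∃ (U : Submodule ℂ V) (σ : Representation ℂ (stab A μ) U), Irred σ ∧
      (∀ (h : stab A μ) (v : U), ((σ h v : U) : V) = ρ h v) ∧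
      (∀ (h : stab A μ) (a : A),
        σ.character (h * ⟨a, le_stab A μ a.2⟩) = ((μ a : ℂˣ) : ℂ) * σ.character h) ∧
      (∀ (a : A) (v : U), ρ a v = ((μ a : ℂˣ) : ℂ) • (v : V)) ∧
      ∀ θ : G → ℂ, (∀ g x : G, θ (x * g * x⁻¹) = θ g) →
      pr θ ρ.character = pr (fun h : stab A μ => θ h) σ.character := by
  classical
  have : Fintype A := Fintype.ofFinite A
  have hcA : (Nat.card A : ℂ) ≠ 0 := card_ne
  let P : V →ₗ[ℂ] V := (Nat.card A : ℂ)⁻¹ • ∑ a : A, (((μ a)⁻¹ : ℂˣ) : ℂ) • ρ a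
  have hP : ∀ v, P v = (Nat.card A : ℂ)⁻¹ • ∑ a : A, (((μ a)⁻¹ : ℂˣ) : ℂ) • ρ a v := by
    intro v
    simp [P, LinearMap.sum_apply]
  have hPw : ∀ v, (∀ a : A, ρ a v = ((μ a : ℂˣ) : ℂ) • v) → P v = v := by
    intro v hv
    rw [hP]
    have h1 : ∀ a : A, (((μ a)⁻¹ : ℂˣ) : ℂ) • ρ a v = v := by
      intro a
      rw [hv, smul_smul, ← Units.val_mul, inv_mul_cancel, Units.val_one, one_smul]
    rw [Finset.sum_congr rfl (fun a _ => h1 a), Finset.sum_const, Finset.card_univ,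
      ← Nat.card_eq_fintype_card, ← Nat.cast_smul_eq_nsmul ℂ, smul_smul, inv_mul_cancel₀ hcA,
      one_smul]
  have hwP : ∀ (a : A) (v : V), ρ a (P v) = ((μ a : ℂˣ) : ℂ) • P v := by
    intro a v
    rw [hP, map_smul, map_sum, smul_comm ((μ a : ℂˣ) : ℂ) ((Nat.card A : ℂ)⁻¹)]
    congr 1
    rw [Finset.smul_sum, ← Equiv.sum_comp (Equiv.mulLeft a) (fun b : A => ((μ a : ℂˣ) : ℂ) •
      (((μ b)⁻¹ : ℂˣ) : ℂ) • ρ b v)]
    refine Finset.sum_congr rfl fun b _ => ?_
    rw [map_smul, Equiv.coe_mulLeft, map_mul, mul_inv_rev, smul_smul, ← Units.val_mul,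
      mul_comm (μ b)⁻¹, ← mul_assoc, mul_inv_cancel, one_mul, Subgroup.coe_mul, map_mul,
      Module.End.mul_apply]
  have hPc : ∀ (g : G), g ∈ stab A μ → ∀ v, P (ρ g v) = ρ g (P v) := by
    intro g hg v
    rw [hP, hP, map_smul, map_sum]
    congr 1
    rw [← Equiv.sum_comp (MulAut.conjNormal g).toEquiv (fun b : A =>
      (((μ b)⁻¹ : ℂˣ) : ℂ) • ρ b (ρ g v))]
    refine Finset.sum_congr rfl fun b _ => ?_
    change (((μ (MulAut.conjNormal g b))⁻¹ : ℂˣ) : ℂ) • ρ (MulAut.conjNormal g b : A) (ρ g v) = _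
    rw [map_smul, mem_stab.mp hg, ← Module.End.mul_apply,
      ← Module.End.mul_apply, ← map_mul, ← map_mul, MulAut.conjNormal_apply,
      inv_mul_cancel_right]
  have hPG : ∀ g, g ∉ stab A μ → ∀ v, P (ρ g (P v)) = 0 := by
    intro g hg v
    have h0 : ∃ a : A, μ (MulAut.conjNormal g⁻¹ a) ≠ μ a := by
      by_contra hcon
      push Not at hcon
      apply hg
      have h1 : g⁻¹ ∈ stab A μ := hcon
      simpa using (stab A μ).inv_mem h1
    obtain ⟨a, ha⟩ := h0
    have h1 : ρ a (ρ g (P v)) = ((μ (MulAut.conjNormal g⁻¹ a) : ℂˣ) : ℂ) • ρ g (P v) := by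
      have h2 : (a : G) * g = g * (MulAut.conjNormal g⁻¹ a : A) := by
        rw [MulAut.conjNormal_apply]
        group
      rw [← Module.End.mul_apply, ← map_mul, h2, map_mul, Module.End.mul_apply, hwP, map_smul]
    have h2 := hPc a (le_stab A μ a.2) (ρ g (P v))
    rw [h1, map_smul, hwP] at h2
    have h3 : (((μ (MulAut.conjNormal g⁻¹ a) : ℂˣ) : ℂ) - ((μ a : ℂˣ) : ℂ)) • P (ρ g (P v)) = 0 := by
      rw [sub_smul, h2, sub_self]
    rcases smul_eq_zero.mp h3 with h4 | h4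
    · exact absurd (Units.ext (sub_eq_zero.mp h4)) ha
    · exact h4
  have hP0 : P v₀ = v₀ := hPw v₀ hμ
  obtain ⟨σ, hσI, hσ, hdeg, hpr⟩ := imprim_eq hρ (stab A μ) P (fun v => hPw _ fun a => hwP a v) (by
    intro h
    rw [h] at hP0
    exact hv₀ hP0.symm) (fun h hh v => hPc h hh v) hPG
  refine ⟨LinearMap.range P, σ, hσI, hσ, ?_, ?_, hpr⟩
  swap
  · intro a v
    obtain ⟨w, hw⟩ := v.2
    rw [← hw]
    exact hwP a w
  intro h a
  have h1 : σ (h * ⟨a, le_stab A μ a.2⟩) = ((μ a : ℂˣ) : ℂ) • σ h := by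
    refine LinearMap.ext fun v => ?_
    rw [map_mul, Module.End.mul_apply, LinearMap.smul_apply, ← map_smul]
    congr 1
    apply Subtype.ext
    rw [hσ]
    obtain ⟨w, hw⟩ := v.2
    change ρ a (v : V) = ((μ a : ℂˣ) : ℂ) • (v : V)
    rw [← hw]
    exact hwP a w
  change LinearMap.trace ℂ _ (σ (h * ⟨a, le_stab A μ a.2⟩)) = _
  rw [h1, map_smul, smul_eq_mul]
  rfl


end

section orbit

variable {G : Type} [Group G] {V : Type} [AddCommGroup V] [Module ℂ V] [FiniteDimensional ℂ V]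

lemma finrank_finset_sup_le {ι : Type*} (s : Finset ι) (f : ι → Submodule ℂ V) (k : ℕ)
    (hf : ∀ i ∈ s, Module.finrank ℂ (f i) ≤ k) : Module.finrank ℂ (s.sup f : Submodule ℂ V) ≤ s.card * k := by
  classical
  induction s using Finset.induction_on with
  | empty =>
    rw [Finset.sup_empty, finrank_bot]
    exact Nat.zero_le _
  | insert a s ha ih =>
    rw [Finset.sup_insert, Finset.card_insert_of_notMem ha]
    have h1 := ih fun i hi => hf i (Finset.mem_insert_of_mem hi)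
    have h2 := hf a (Finset.mem_insert_self a s)
    have h3 := Submodule.finrank_add_le_finrank_add_finrank (f a) (s.sup f)
    nlinarith

/-- the space spanned by the translates of a subspace -/
lemma exists_sup [Finite G] (ρ : Representation ℂ G V) (S T : Subgroup G) (U : Submodule ℂ V)
    (hU : ∀ x ∈ S, x ∈ T → ∀ u ∈ U, ρ x u ∈ U) :
    ∃ W : Submodule ℂ V, U ≤ W ∧ (∀ s ∈ S, ∀ w ∈ W, ρ s w ∈ W) ∧
      Module.finrank ℂ W ≤ T.index * Module.finrank ℂ U := by
  classical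
  let Q := S ⧸ T.subgroupOf S
  have hfin : Finite Q := inferInstance
  have : Fintype Q := Fintype.ofFinite Q
  let f : Q → Submodule ℂ V := fun q => U.map (ρ ((Quotient.out q : S) : G))
  have hcard : Fintype.card Q ≤ T.index := by
    have h1 : Fintype.card Q = T.relIndex S := by
      rw [← Nat.card_eq_fintype_card]
      rfl
    rw [h1, ← Subgroup.relIndex_top_right]
    exact Subgroup.relIndex_le_of_le_right le_top (by
      rw [Subgroup.relIndex_top_right]
      exact Subgroup.index_ne_zero_of_finite)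
  have hmem : ∀ (s : S) (u : V), u ∈ U → ρ (s : G) u ∈ (Finset.univ.sup f : Submodule ℂ V) := by
    intro s u hu
    have h1 : (QuotientGroup.mk s : Q) = QuotientGroup.mk (Quotient.out (QuotientGroup.mk s : Q)) :=
      (QuotientGroup.out_eq' _).symm
    rw [QuotientGroup.eq] at h1
    set t : S := Quotient.out (QuotientGroup.mk s : Q) with ht
    have h2 : (t : G)⁻¹ * s ∈ T := by
      have h3 : (s⁻¹ * t)⁻¹ ∈ T.subgroupOf S := inv_mem h1
      rw [mul_inv_rev, inv_inv] at h3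
      exact h3
    have h3 : (t : G)⁻¹ * s ∈ S := S.mul_mem (S.inv_mem t.2) s.2
    have h4 : ρ (s : G) u = ρ (t : G) (ρ ((t : G)⁻¹ * s) u) := by
      rw [← Module.End.mul_apply, ← map_mul, mul_inv_cancel_left]
    rw [h4]
    have h5 : f (QuotientGroup.mk s : Q) ≤ Finset.univ.sup f := Finset.le_sup (Finset.mem_univ _)
    apply h5
    exact ⟨_, hU _ h3 h2 u hu, rfl⟩
  refine ⟨Finset.univ.sup f, ?_, ?_, ?_⟩
  · intro u hu
    have := hmem 1 u hu
    rwa [Subgroup.coe_one, map_one, Module.End.one_apply] at this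
  · intro s hs w hw
    have h1 : (Finset.univ.sup f : Submodule ℂ V) ≤ (Finset.univ.sup f : Submodule ℂ V).comap (ρ s) := by
      refine Finset.sup_le fun q _ => ?_
      rintro _ ⟨u, hu, rfl⟩
      rw [Submodule.mem_comap, ← Module.End.mul_apply, ← map_mul]
      exact hmem (⟨s, hs⟩ * Quotient.out q) u hu
    exact h1 hw
  · refine (finrank_finset_sup_le Finset.univ f (Module.finrank ℂ U) fun q _ =>
      Submodule.finrank_map_le _ _).trans ?_
    rw [Finset.card_univ]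
    exact Nat.mul_le_mul_right _ hcard

/-- minimal invariant subspaces -/
lemma exists_min_inv (ρ : Representation ℂ G V) (S : Subgroup G) (W₀ : Submodule ℂ V)
    (h0 : W₀ ≠ ⊥) (h1 : ∀ s ∈ S, ∀ w ∈ W₀, ρ s w ∈ W₀) :
    ∃ (W : Submodule ℂ V) (σ : Representation ℂ S W), W ≤ W₀ ∧ W ≠ ⊥ ∧ Irred σ ∧
      ∀ (s : S) (w : W), ((σ s w : W) : V) = ρ s w := by
  classical
  have key : ∀ n : ℕ, ∀ W₀ : Submodule ℂ V, Module.finrank ℂ W₀ = n → W₀ ≠ ⊥ →
      (∀ s ∈ S, ∀ w ∈ W₀, ρ s w ∈ W₀) →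
      ∃ (W : Submodule ℂ V) (σ : Representation ℂ S W), W ≤ W₀ ∧ W ≠ ⊥ ∧ Irred σ ∧
      ∀ (s : S) (w : W), ((σ s w : W) : V) = ρ s w := by
    intro n
    induction n using Nat.strong_induction_on with
    | _ n ih =>
    intro W₀ hn h0 h1
    let σ : Representation ℂ S W₀ :=
      { toFun := fun s => (ρ s).restrict (fun w hw => h1 s s.2 w hw)
        map_one' := by
          ext v
          simp
        map_mul' := by
          intro a b
          ext v
          simp }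
    have hσ : ∀ (s : S) (w : W₀), ((σ s w : W₀) : V) = ρ s w := fun s w => rfl
    by_cases hI : Irred σ
    · exact ⟨W₀, σ, le_rfl, h0, hI, hσ⟩
    have hnt : Nontrivial W₀ := (Submodule.nontrivial_iff_ne_bot).mpr h0
    obtain ⟨U, hU, hb, ht⟩ : ∃ U : Submodule ℂ W₀, (∀ g, ∀ v ∈ U, σ g v ∈ U) ∧ U ≠ ⊥ ∧ U ≠ ⊤ := by
      by_contra hcon
      push Not at hcon
      apply hI
      refine ⟨hnt, fun W hW => ?_⟩
      by_cases h : W = ⊥
      · left; exact h
      · right; exact hcon W hW h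
    have hUW : U.map W₀.subtype ≤ W₀ := Submodule.map_subtype_le W₀ U
    have hUb : U.map W₀.subtype ≠ ⊥ := by
      intro h
      apply hb
      rw [eq_bot_iff]
      intro u hu
      have h2 : (u : V) ∈ U.map W₀.subtype := ⟨u, hu, rfl⟩
      rw [h, Submodule.mem_bot] at h2
      rw [Submodule.mem_bot]
      exact Subtype.ext h2
    have hlt : Module.finrank ℂ (U.map W₀.subtype) < n := by
      rw [Submodule.finrank_map_subtype_eq, ← hn]
      exact Submodule.finrank_lt ht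
    obtain ⟨W, τ, hW, hWb, hτ, hτ'⟩ := ih _ hlt (U.map W₀.subtype) rfl hUb (by
      rintro s hs _ ⟨u, hu, rfl⟩
      exact ⟨σ ⟨s, hs⟩ u, hU _ u hu, rfl⟩)
    exact ⟨W, τ, hW.trans hUW, hWb, hτ, hτ'⟩
  exact key _ W₀ rfl h0 h1

end orbit

/-- the degree of a character with scalar values on a subgroup -/
lemma deg_sq_le' {H : Type} [Group H] [Finite H] {χ : H → ℂ} (hχ : χ ∈ Irr H) (Z : Subgroup H)
    {ω : Z →* ℂˣ} (h : ∀ (g : H) (z : Z), χ (g * z) = ((ω z : ℂˣ) : ℂ) * χ g) {e : ℕ}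
    (he : χ 1 = e) : e ^ 2 * Nat.card Z ≤ Nat.card H := by
  classical
  have : Fintype H := Fintype.ofFinite H
  have : Fintype Z := Fintype.ofFinite _
  have hH := irr_heilbronn hχ
  have h1 := pair_self hχ
  have h2 : ∀ g : H, χ g * χ g⁻¹ = ((‖χ g‖ ^ 2 : ℝ) : ℂ) := by
    intro g
    rw [heilbronn_star hH g]
    have := Complex.mul_conj (χ g)
    rw [Complex.normSq_eq_norm_sq] at this
    exact this
  rw [Finset.sum_congr rfl (fun g _ => h2 g), ← Complex.ofReal_sum] at h1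
  have h3 : ∑ g : H, ‖χ g‖ ^ 2 = (Nat.card H : ℝ) := by exact_mod_cast h1
  have h4 : ∑ g ∈ Finset.univ.filter (fun g : H => g ∈ Z), ‖χ g‖ ^ 2
      ≤ ∑ g : H, ‖χ g‖ ^ 2 :=
    Finset.sum_le_sum_of_subset_of_nonneg (Finset.filter_subset _ _) fun _ _ _ => sq_nonneg _
  have h5 : ∑ g ∈ Finset.univ.filter (fun g : H => g ∈ Z), ‖χ g‖ ^ 2
      = Nat.card Z * (e : ℝ) ^ 2 := by
    rw [Finset.sum_subtype (Finset.univ.filter fun g : H => g ∈ Z)
      (p := fun g => g ∈ Z) (by simp) (fun g => ‖χ g‖ ^ 2)]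
    have h6 : ∀ z : Z, ‖χ z‖ ^ 2 = (e : ℝ) ^ 2 := by
      intro z
      have h7 := h 1 z
      rw [one_mul, he] at h7
      have h8 : ‖((ω z : ℂˣ) : ℂ)‖ = 1 := by
        have h9 : ((ω z : ℂˣ) : ℂ) ^ (Nat.card Z) = 1 := by
          rw [← Units.val_pow_eq_pow_val, ← map_pow, pow_card_eq_one', map_one, Units.val_one]
        exact Complex.norm_eq_one_of_pow_eq_one h9 Nat.card_pos.ne'
      rw [h7, norm_mul, h8, one_mul, Complex.norm_natCast]
    rw [Finset.sum_congr rfl (fun z _ => h6 z), Finset.sum_const, Finset.card_univ,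
      nsmul_eq_mul, Nat.card_eq_fintype_card]
  rw [h5, h3] at h4
  have h6 : ((e ^ 2 * Nat.card Z : ℕ) : ℝ) ≤ (Nat.card H : ℝ) := by
    push_cast
    linarith
  exact_mod_cast h6

end Pool.Agent.Helper503_AD
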