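import Mathlib
import Pool.Agent.Helper503_AD.Rep
import Pool.Agent.Helper503_AD.Mult
import Pool.Agent.Helper503_AD.FrameP
import Pool.Agent.R362.GMain

/-!
# The induction
-/

set_option autoImplicit false
set_option linter.unusedSectionVars false

namespace Pool.Agent.Helper503_AD

open Pool.Agent.H302R2 Pool.Agent.H541R3.ART Pool.Agent.H302R5 Pool.Agent.H302R6
  Pool.Agent.W446.AS Pool.Agent.R362

/-- the primitive case -/
lemma prim_case {G : Type} [Group G] [Finite G] {V : Type} [AddCommGroup V] [Module ℂ V]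
    [FiniteDimensional ℂ V] {ρ : Representation ℂ G V} (hρ : Irred ρ)
    (hfaith : ∀ g, ρ g = 1 → g = 1) {θ : G → ℂ} (hθ : IsHeilbronn θ) (hvirt : Virt θ) {r : ℕ}
    (hr : θ 1 = r) (hne : pr θ ρ.character ≠ 0) (S : Subgroup G) (hSn : S.Normal)
    (hS : Group.IsSolvable S) (hZS : Subgroup.center G ≤ S)
    (hab : ∀ A : Subgroup G, A.Normal → A ≤ S →
      (∀ a ∈ A, ∀ b ∈ A, a * b = b * a) → A ≤ Subgroup.center G) :
    ∃ W : Submodule ℂ V, W ≠ ⊥ ∧ (∀ s ∈ S, ∀ w ∈ W, ρ s w ∈ W) ∧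
      Module.finrank ℂ W ^ 5 ≤ r ^ 17 := by
  classical
  obtain ⟨ω, hω⟩ := hρ.central
  have hωi : Function.Injective ω := by
    rw [injective_iff_map_eq_one]
    intro z hz
    apply Subtype.ext
    apply hfaith
    refine LinearMap.ext fun v => ?_
    rw [hω z v, hz, Units.val_one, one_smul, Module.End.one_apply]
  have hχω : ∀ (g : G) (z : Subgroup.center G),
      ρ.character (g * z) = ((ω z : ℂˣ) : ℂ) * ρ.character g := by
    intro g z
    have h1 : ρ (g * z) = ((ω z : ℂˣ) : ℂ) • ρ g := by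
      refine LinearMap.ext fun v => ?_
      rw [map_mul, Module.End.mul_apply, hω, map_smul, LinearMap.smul_apply]
    change LinearMap.trace ℂ _ (ρ (g * z)) = _ * LinearMap.trace ℂ _ (ρ g)
    rw [h1, map_smul, smul_eq_mul]
  obtain ⟨F, hFn, hZF, hFS, hcomm, hcentS, hcard⟩ := exists_frameP S hSn hS hZS hab hωi
  obtain ⟨d, hd, hdcard, hdiv⟩ := ext_sub hZF hcomm (fun x hx h => hcentS x (hFS hx) h) ω hωi
  let τ : G → ℂ := lam (Subgroup.center G) ω θ
  have hτH : IsHeilbronn τ := lam_heilbronn le_rfl hθ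
  have hτpr : pr τ ρ.character = pr θ ρ.character := pr_lam hvirt le_rfl (irr_of_irred hρ) hχω
  obtain ⟨a, har, ha⟩ := lam_one_le (μ := ω) le_rfl hθ hr
  have ha' : τ 1 = a := ha
  obtain ⟨k, hk⟩ := hdiv G F.subtype τ hτH (by
    intro g z
    exact lam_mul (g : G) z)
  have hak : a = k * d := by
    rw [ha'] at hk
    exact_mod_cast hk
  have ha0 : a ≠ 0 := by
    intro ha0
    apply hne
    rw [← hτpr]
    have h1 : τ = 0 := by
      funext g
      have h2 := hτH.norm_le g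
      rw [ha', ha0] at h2
      simpa using h2
    rw [h1, pr_zero_left]
  have hk0 : 0 < k := by
    rcases Nat.eq_zero_or_pos k with h | h
    · rw [h, zero_mul] at hak; exact absurd hak ha0
    · exact h
  have hdr : d ≤ r := by
    have : d ≤ a := by rw [hak]; exact Nat.le_mul_of_pos_left d hk0
    exact this.trans har
  have hn := hρ.1
  obtain ⟨W, σ, -, hWb, hσ, hσv⟩ := exists_min_inv ρ S ⊤ top_ne_bot (fun s _ w _ => Submodule.mem_top)
  refine ⟨W, hWb, fun s hs w hw => ?_, ?_⟩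
  · have := hσv ⟨s, hs⟩ ⟨w, hw⟩
    rw [← this]
    exact (σ ⟨s, hs⟩ ⟨w, hw⟩).2
  let Z' : Subgroup S := (Subgroup.center G).subgroupOf S
  let e : Z' ≃* Subgroup.center G := Subgroup.subgroupOfEquivOfLe hZS
  have hdeg : (Module.finrank ℂ W) ^ 2 * Nat.card Z' ≤ Nat.card S := by
    refine deg_sq_le' (irr_of_irred hσ) Z' (ω := ω.comp e.toMonoidHom) ?_ σ.char_one
    intro g z
    have h1 : σ (g * z) = ((ω (e z) : ℂˣ) : ℂ) • σ g := by
      refine LinearMap.ext fun v => ?_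
      rw [map_mul, Module.End.mul_apply, LinearMap.smul_apply, ← map_smul]
      congr 1
      apply Subtype.ext
      rw [hσv]
      exact hω (e z) v
    change LinearMap.trace ℂ _ (σ (g * z)) = _ * LinearMap.trace ℂ _ (σ g)
    rw [h1, map_smul, smul_eq_mul]
    rfl
  have hZ' : Nat.card Z' = Nat.card (Subgroup.center G) := Nat.card_congr e.toEquiv
  have hZpos : 0 < Nat.card (Subgroup.center G) := Nat.card_pos
  have h1 : (Module.finrank ℂ W ^ 5) ^ 2 ≤ (d ^ 17) ^ 2 := by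
    have hpos : 0 < Nat.card (Subgroup.center G) ^ 17 := by positivity
    apply Nat.le_of_mul_le_mul_right _ hpos
    rw [hZ'] at hdeg
    calc (Module.finrank ℂ W ^ 5) ^ 2 * Nat.card (Subgroup.center G) ^ 17
        = (Module.finrank ℂ W ^ 2 * Nat.card (Subgroup.center G)) ^ 5 *
          Nat.card (Subgroup.center G) ^ 12 := by ring
      _ ≤ Nat.card S ^ 5 * Nat.card (Subgroup.center G) ^ 12 :=
          Nat.mul_le_mul_right _ (Nat.pow_le_pow_left hdeg 5)
      _ ≤ Nat.card F ^ 17 := hcard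
      _ = (d ^ 17) ^ 2 * Nat.card (Subgroup.center G) ^ 17 := by
          rw [← hdcard]
          ring
  have h2 : Module.finrank ℂ W ^ 5 ≤ d ^ 17 := (Nat.pow_le_pow_iff_left (by norm_num)).mp h1
  exact h2.trans (Nat.pow_le_pow_left hdr 17)

/-- Let `θ` be a Heilbronn virtual character of degree `r`, and `ρ` an irreducible representation
whose multiplicity in `θ` is not zero.  Then for every solvable normal subgroup `S` there is a nonzero
`S`-invariant subspace of dimension at most `r ^ (17 / 5)`. -/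
theorem main_ind : ∀ (N : ℕ) (G : Type) [Group G] [Finite G], Nat.card G = N →
    ∀ (V : Type) [AddCommGroup V] [Module ℂ V] [FiniteDimensional ℂ V]
      (ρ : Representation ℂ G V), Irred ρ →
    ∀ θ : G → ℂ, IsHeilbronn θ → Virt θ → ∀ r : ℕ, θ 1 = r → pr θ ρ.character ≠ 0 →
    ∀ S : Subgroup G, S.Normal → Group.IsSolvable S →
    ∃ W : Submodule ℂ V, W ≠ ⊥ ∧ (∀ s ∈ S, ∀ w ∈ W, ρ s w ∈ W) ∧
      Module.finrank ℂ W ^ 5 ≤ r ^ 17 := by
  classical
  intro N
  induction N using Nat.strong_induction_on with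
  | _ N ih =>
  intro G _ _ hN V _ _ _ ρ hρ θ hθ hvirt r hr hne S₀ hSn₀ hS₀
  have : Fintype G := Fintype.ofFinite G
  -- the kernel
  by_cases hfaith : ∀ g, ρ g = 1 → g = 1
  swap
  · push Not at hfaith
    obtain ⟨g, hg, hg1⟩ := hfaith
    let Nk : Subgroup G := MonoidHom.ker ρ
    let π : G →* G ⧸ Nk := QuotientGroup.mk' Nk
    have hπ : Function.Surjective π := QuotientGroup.mk'_surjective Nk
    let ρ' : Representation ℂ (G ⧸ Nk) V := QuotientGroup.lift Nk ρ (fun x hx => hx)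
    have hρ' : ∀ x, ρ' (π x) = ρ x := fun x => rfl
    have hρI : Irred ρ' := by
      refine ⟨hρ.1, fun W hW => hρ.2 W ?_⟩
      intro x v hv
      rw [← hρ']
      exact hW (π x) v hv
    have hcard : Nat.card (G ⧸ Nk) < N := by
      rw [← hN, Subgroup.card_eq_card_quotient_mul_card_subgroup Nk]
      have h2 : 1 < Nat.card Nk := by
        have : Nontrivial Nk := ⟨⟨g, hg⟩, 1, fun h => hg1 (congrArg Subtype.val h)⟩
        exact Finite.one_lt_card
      have h3 : 0 < Nat.card (G ⧸ Nk) := Nat.card_pos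
      nlinarith
    obtain ⟨r', hr', hr1⟩ := push_one_nat_le hπ hθ hr
    have hsol : Group.IsSolvable (S₀.map π) :=
      Group.isSolvable_of_surjective (f := π.subgroupMap S₀) (π.subgroupMap_surjective S₀)
    obtain ⟨W, hW0, hW1, hW2⟩ := ih _ hcard (G ⧸ Nk) rfl V ρ' hρI (push π θ)
      (push_isHeilbronn hπ hθ) (Virt.push hπ hvirt) r' hr1 (by
        rw [pr_push hπ]
        exact hne) (S₀.map π) (hSn₀.map π hπ) hsol
    exact ⟨W, hW0, fun s hs w hw => hW1 (π s) ⟨s, hs, rfl⟩ w hw, hW2.trans (Nat.pow_le_pow_left hr' 17)⟩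
  -- the centre
  obtain ⟨S, hSn, hS, hS₀S, hZS⟩ : ∃ S : Subgroup G, S.Normal ∧ Group.IsSolvable S ∧ S₀ ≤ S ∧
      Subgroup.center G ≤ S := by
    refine ⟨S₀ ⊔ Subgroup.center G, inferInstance, ?_, le_sup_left, le_sup_right⟩
    refine sup_sol (fun a _ b hb => ?_) hS₀ ?_
    · exact Subgroup.mem_center_iff.mp hb a
    · exact Group.isSolvable_of_comm fun a b => Subtype.ext (Subgroup.mem_center_iff.mp b.2 a)
  suffices hsuf : ∃ W : Submodule ℂ V, W ≠ ⊥ ∧ (∀ s ∈ S, ∀ w ∈ W, ρ s w ∈ W) ∧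
      Module.finrank ℂ W ^ 5 ≤ r ^ 17 by
    obtain ⟨W, h1, h2, h3⟩ := hsuf
    exact ⟨W, h1, fun s hs => h2 s (hS₀S hs), h3⟩
  by_cases hab : ∀ A : Subgroup G, A.Normal → A ≤ S →
      (∀ a ∈ A, ∀ b ∈ A, a * b = b * a) → A ≤ Subgroup.center G
  · exact prim_case hρ hfaith hθ hvirt hr hne S hSn hS hZS hab
  -- Clifford
  push Not at hab
  obtain ⟨A, hAn, hAS, hAc, hA⟩ := hab
  have hAc' : ∀ a b : A, a * b = b * a := fun a b => Subtype.ext (hAc a a.2 b b.2)
  obtain ⟨μ, v₀, hv₀, hμ⟩ := exists_weight (B := A) hAc' (ρ.comp A.subtype) hρ.1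
  have hT := stab_ne_top hρ hfaith A hA μ v₀ hv₀ hμ
  obtain ⟨U, σ, hσ, hσv, hσμ, -, hpr⟩ := stab_rep hρ A μ v₀ hv₀ hμ
  have hcard : Nat.card (stab A μ) < N := by
    rw [← hN]
    refine lt_of_le_of_ne (Subgroup.card_le_card_group _) fun h2 => hT ?_
    exact Subgroup.eq_top_of_card_eq _ h2
  obtain ⟨m, hm, hmr⟩ := index_mul_le hθ A hAc' μ hr
  -- the part over `μ`
  let A' : Subgroup (stab A μ) := A.subgroupOf (stab A μ)
  let e : A' ≃* A := Subgroup.subgroupOfEquivOfLe (le_stab A μ)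
  have he : ∀ a : A', ((e a : A) : G) = ((a : stab A μ) : G) := fun a => rfl
  let μ' : A' →* ℂˣ := μ.comp e.toMonoidHom
  have hμ'e : ∀ a : A', μ' a = μ (e a) := fun a => rfl
  have hμ' : ∀ (t : stab A μ) (a : A'), μ' (MulAut.conjNormal t a) = μ' a := by
    intro t a
    rw [hμ'e, hμ'e, ← (mem_stab.mp t.2) (e a)]
    congr 1
  have hrest : IsHeilbronn (fun x : stab A μ => θ x) := hθ.comp (stab A μ).subtype
  have hrestV : Virt (fun x : stab A μ => θ x) := hvirt.comp (stab A μ).subtype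
  have hθ1 : lam A' μ' (fun x : stab A μ => θ x) 1 = m := by
    rw [← hm]
    have : Fintype A := Fintype.ofFinite A
    have : Fintype A' := Fintype.ofFinite A'
    rw [lam_eq, lam_eq, Nat.card_congr e.toEquiv, ← Equiv.sum_comp e.toEquiv
      (fun a : A => θ (1 * a) * (((μ a)⁻¹ : ℂˣ) : ℂ))]
    rfl
  have hne' : pr (lam A' μ' (fun x : stab A μ => θ x)) σ.character ≠ 0 := by
    rw [pr_lam' (fun g x => σ.char_conj g x) (by
      intro g a
      exact hσμ g (e a)), ← hpr θ hθ.conj]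
    exact hne
  have hsol : Group.IsSolvable (S.subgroupOf (stab A μ)) := by
    let f : S.subgroupOf (stab A μ) →* S :=
      { toFun := fun x => ⟨((x : stab A μ) : G), x.2⟩
        map_one' := rfl
        map_mul' := fun _ _ => rfl }
    refine Group.isSolvable_of_isSolvable_injective (f := f) ?_
    intro x y hxy
    have h4 : ((x : stab A μ) : G) = ((y : stab A μ) : G) := congrArg (fun z : S => (z : G)) hxy
    exact Subtype.ext (Subtype.ext h4)
  obtain ⟨W', hW0, hW1, hW2⟩ := ih _ hcard (stab A μ) rfl U σ hσ _ (lam_heilbronn' hμ' hrest)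
    (virt_lam' hμ' hrestV) m hθ1 hne' (S.subgroupOf (stab A μ)) inferInstance hsol
  obtain ⟨W, hUW, hWS, hWr⟩ := exists_sup ρ S (stab A μ) (W'.map U.subtype) (by
    rintro x hxS hxT _ ⟨u, hu, rfl⟩
    exact ⟨σ ⟨x, hxT⟩ u, hW1 ⟨x, hxT⟩ hxS u hu, hσv ⟨x, hxT⟩ u⟩)
  refine ⟨W, ?_, hWS, ?_⟩
  · intro h
    rw [h, le_bot_iff] at hUW
    apply hW0
    rw [eq_bot_iff]
    intro u hu
    have h2 : (u : V) ∈ W'.map U.subtype := ⟨u, hu, rfl⟩
    rw [hUW, Submodule.mem_bot] at h2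
    rw [Submodule.mem_bot]
    exact Subtype.ext h2
  · rw [Submodule.finrank_map_subtype_eq] at hWr
    have ht : 0 < (stab A μ).index := Nat.pos_of_ne_zero Subgroup.index_ne_zero_of_finite
    calc Module.finrank ℂ W ^ 5 ≤ ((stab A μ).index * Module.finrank ℂ W') ^ 5 :=
          Nat.pow_le_pow_left hWr 5
      _ = (stab A μ).index ^ 5 * Module.finrank ℂ W' ^ 5 := by rw [mul_pow]
      _ ≤ (stab A μ).index ^ 17 * m ^ 17 :=
          Nat.mul_le_mul (Nat.pow_le_pow_right ht (by norm_num)) hW2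
      _ = ((stab A μ).index * m) ^ 17 := by rw [mul_pow]
      _ ≤ r ^ 17 := Nat.pow_le_pow_left hmr 17

end Pool.Agent.Helper503_AD
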