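import Mathlib
import Pool.Agent.Helper503_AD.Main
import Pool.Agent.R362.LocalArt

/-!
# The degrees of the Artin L-functions with a zero or a pole at a point
-/

set_option autoImplicit false
set_option linter.unusedSectionVars false

namespace Pool.Agent.Helper503_AD

open Pool.Agent.H302R2 Pool.Agent.H541R3.ART Pool.Agent.H302R5 Pool.Agent.H302R6
  Pool.Agent.W446.AS Pool.Agent.R362

variable {G : Type} [Group G] [Finite G]

/-- an irreducible subspace gives a constituent of the restriction -/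
lemma mult_ne_zero {V : Type} [AddCommGroup V] [Module ℂ V] [FiniteDimensional ℂ V]
    {ρ : Representation ℂ G V} (S : Subgroup G) {W : Submodule ℂ V} {σ : Representation ℂ S W}
    (hσ : Irred σ) (hσv : ∀ (s : S) (w : W), ((σ s w : W) : V) = ρ s w) :
    ∑ᶠ s : S, ρ.character s * σ.character s⁻¹ ≠ 0 := by
  classical
  have : Fintype S := Fintype.ofFinite S
  have hH : (Nat.card S : ℂ) ≠ 0 := card_ne
  have : Invertible (Nat.card S : ℂ) := invertibleOfNonzero hH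
  let τ : Representation ℂ S V := ρ.comp S.subtype
  have h := Representation.card_inv_mul_sum_char_mul_char_eq_finrank σ τ
  have hnt := hσ.1
  obtain ⟨w, hw⟩ := exists_ne (0 : W)
  let f : Representation.IntertwiningMap σ τ :=
    { toLinearMap := W.subtype
      isIntertwining' := by
        intro s
        refine LinearMap.ext fun v => ?_
        exact hσv s v }
  have hf : f ≠ 0 := by
    intro h0
    apply hw
    apply Subtype.ext
    have h1 : f w = (0 : Representation.IntertwiningMap σ τ) w := by rw [h0]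
    exact h1
  have hpos : 0 < Module.finrank ℂ (Representation.IntertwiningMap σ τ) :=
    Module.finrank_pos_iff_exists_ne_zero.mpr ⟨f, hf⟩
  rw [finsum_eq_sum_of_fintype]
  intro h0
  have h2 : ∑ x : S, τ.character x * σ.character x⁻¹ = 0 := h0
  rw [h2, mul_zero] at h
  have h3 : (Module.finrank ℂ (Representation.IntertwiningMap σ τ) : ℂ) ≠ 0 := by
    exact_mod_cast hpos.ne'
  exact h3 h.symm

/-- the theorem for a Heilbronn virtual character -/
theorem heil_main {θ : G → ℂ} (hθ : IsHeilbronn θ) (hvirt : Virt θ) {r : ℕ} (hr : θ 1 = r)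
    (S : Subgroup G) (hSn : S.Normal) (hS : Group.IsSolvable S) {χ : G → ℂ} (hχ : χ ∈ Irr G)
    (hne : pr θ χ ≠ 0) :
    ∃ d e : ℕ, χ 1 = d ∧ d ≤ S.index * e ∧ e ^ 5 ≤ r ^ 17 ∧
      ∃ η ∈ Irr S, η 1 = e ∧ ∑ᶠ s : S, χ s * η s⁻¹ ≠ 0 := by
  classical
  obtain ⟨m, ρ, hρ, rfl⟩ := exists_rep hχ
  obtain ⟨W₀, hW0, hW1, hW2⟩ := main_ind _ G rfl (Fin m → ℂ) ρ hρ θ hθ hvirt r hr hne S hSn hS
  obtain ⟨W, σ, hWW, hWb, hσ, hσv⟩ := exists_min_inv ρ S W₀ hW0 hW1
  obtain ⟨W₂, hWW₂, hW₂, hW₂r⟩ := exists_sup ρ ⊤ S W (by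
    intro x _ hx u hu
    have := hσv ⟨x, hx⟩ ⟨u, hu⟩
    rw [← this]
    exact (σ ⟨x, hx⟩ ⟨u, hu⟩).2)
  have htop : W₂ = ⊤ := by
    rcases hρ.2 W₂ (fun g v hv => hW₂ g (Subgroup.mem_top g) v hv) with h | h
    · rw [h, le_bot_iff] at hWW₂
      exact absurd hWW₂ hWb
    · exact h
  refine ⟨Module.finrank ℂ (Fin m → ℂ), Module.finrank ℂ W, ρ.char_one, ?_,
    (Nat.pow_le_pow_left (Submodule.finrank_mono hWW) 5).trans hW2, σ.character, irr_of_irred hσ, σ.char_one,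
    mult_ne_zero S hσ hσv⟩
  rw [htop, finrank_top] at hW₂r
  exact hW₂r

theorem art_main {s₀ : ℂ} (A : ArtinData G s₀) {r : ℕ}
    (hr : meromorphicOrderAt (A.Lin ⊥ 1) s₀ = (r : WithTop ℤ)) (S : Subgroup G) (hSn : S.Normal)
    (hS : Group.IsSolvable S) {χ : G → ℂ} (hχ : χ ∈ Irr G)
    (hne : meromorphicOrderAt (A.L χ) s₀ ≠ 0) :
    ∃ d e : ℕ, χ 1 = d ∧ d ≤ S.index * e ∧ e ^ 5 ≤ r ^ 17 ∧
      ∃ η ∈ Irr S, η 1 = e ∧ ∑ᶠ s : S, χ s * η s⁻¹ ≠ 0 :=
  heil_main A.isHeilbronn (theta_virt A.ord) (A.theta_one hr) S hSn hS hχ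
    (fun h => hne (ord_zero A hχ h))

end Pool.Agent.Helper503_AD
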