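import Mathlib
import Pool.Agent.R362.LocalArt

/-!
# Groups of class two and the multiplicities of linear characters
-/

set_option autoImplicit false
set_option linter.unusedSectionVars false

namespace Pool.Agent.Helper503_AD

open Pool.Agent.H302R2 Pool.Agent.H541R3.ART Pool.Agent.H302R5 Pool.Agent.H302R6
  Pool.Agent.W446.AS Pool.Agent.R362 Pool.Agent.Y788.V Pool.Agent.Y788
  Pool.Agent.H302R10 Pool.Agent.TH820

variable {D : Type} [Group D] [Finite D]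

/-- the norm of a nonzero virtual character is at least one -/
lemma one_le_norm {τ : D → ℂ} (hτ : IsHeilbronn τ) (hV : Virt τ) (h1 : τ 1 ≠ 0) :
    (Nat.card D : ℝ) ≤ ∑ᶠ g : D, ‖τ g‖ ^ 2 := by
  classical
  have : Fintype D := Fintype.ofFinite D
  choose! l hl using fun ψ (hψ : ψ ∈ Irr D) => hV.pr_int hψ
  have h2 : pr τ τ = ((∑ ψ ∈ irrF D, l ψ ^ 2 : ℤ) : ℂ) := by
    rw [pr_self_expand hV]
    push_cast
    exact Finset.sum_congr rfl fun ψ hψ => by rw [hl ψ (mem_irrF.mp hψ)]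
  obtain ⟨ψ, hψ, hψ0⟩ : ∃ ψ ∈ irrF D, l ψ ≠ 0 := by
    by_contra hcon
    push Not at hcon
    apply h1
    rw [hV.expand 1]
    refine Finset.sum_eq_zero fun ψ hψ => ?_
    rw [hl ψ (mem_irrF.mp hψ), hcon ψ hψ]
    simp
  have h3 : (1 : ℤ) ≤ ∑ ψ ∈ irrF D, l ψ ^ 2 := by
    have h4 : l ψ ^ 2 ≤ ∑ ψ ∈ irrF D, l ψ ^ 2 :=
      Finset.single_le_sum (f := fun ψ => l ψ ^ 2) (fun _ _ => sq_nonneg _) hψ
    have h5 : 0 < l ψ ^ 2 := by positivity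
    linarith
  have h4 : ∀ g : D, τ g * τ g⁻¹ = ((‖τ g‖ ^ 2 : ℝ) : ℂ) := by
    intro g
    rw [heilbronn_star hτ g]
    have := Complex.mul_conj (τ g)
    rw [Complex.normSq_eq_norm_sq] at this
    exact this
  have h5 : pr τ τ = (((Nat.card D : ℝ)⁻¹ * ∑ g : D, ‖τ g‖ ^ 2 : ℝ) : ℂ) := by
    rw [pr_eq, Finset.sum_congr rfl (fun g _ => h4 g)]
    push_cast
    rfl
  rw [h5] at h2
  have h6 : ((Nat.card D : ℝ)⁻¹ * ∑ g : D, ‖τ g‖ ^ 2) = ((∑ ψ ∈ irrF D, l ψ ^ 2 : ℤ) : ℝ) := by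
    exact_mod_cast h2
  have h7 : (1 : ℝ) ≤ (Nat.card D : ℝ)⁻¹ * ∑ g : D, ‖τ g‖ ^ 2 := by
    rw [h6]
    exact_mod_cast h3
  have hpos : (0 : ℝ) < Nat.card D := by exact_mod_cast Nat.card_pos
  rw [finsum_eq_sum_of_fintype]
  rwa [inv_mul_eq_div, one_le_div hpos] at h7

/-- the radical of the pairing given by the linear character `μ` of the central subgroup `A` -/
def rad (A : Subgroup D) (hA : A ≤ Subgroup.center D)
    (hc : ∀ x y : D, x * y * x⁻¹ * y⁻¹ ∈ A) (μ : A →* ℂˣ) : Subgroup D where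
  carrier := {x | ∀ y, μ ⟨x * y * x⁻¹ * y⁻¹, hc x y⟩ = 1}
  one_mem' := by
    intro y
    have : (⟨1 * y * (1 : D)⁻¹ * y⁻¹, hc 1 y⟩ : A) = 1 := by
      apply Subtype.ext
      simp
    rw [this, map_one]
  mul_mem' := by
    intro a b ha hb y
    have h1 := Subgroup.mem_center_iff.mp (hA (hc b y)) a
    have h2 : (⟨a * b * y * (a * b)⁻¹ * y⁻¹, hc (a * b) y⟩ : A)
        = ⟨b * y * b⁻¹ * y⁻¹, hc b y⟩ * ⟨a * y * a⁻¹ * y⁻¹, hc a y⟩ := by
      apply Subtype.ext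
      change a * b * y * (a * b)⁻¹ * y⁻¹ = b * y * b⁻¹ * y⁻¹ * (a * y * a⁻¹ * y⁻¹)
      calc a * b * y * (a * b)⁻¹ * y⁻¹ = a * (b * y * b⁻¹ * y⁻¹) * (y * a⁻¹ * y⁻¹) := by group
        _ = _ := by rw [h1]; group
    rw [h2, map_mul, ha, hb, one_mul]
  inv_mem' := by
    intro a ha y
    have h1 := Subgroup.mem_center_iff.mp (hA (hc a y)) a⁻¹
    have h2 : (⟨a⁻¹ * y * a⁻¹⁻¹ * y⁻¹, hc a⁻¹ y⟩ : A) = (⟨a * y * a⁻¹ * y⁻¹, hc a y⟩ : A)⁻¹ := by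
      apply Subtype.ext
      change a⁻¹ * y * a⁻¹⁻¹ * y⁻¹ = (a * y * a⁻¹ * y⁻¹)⁻¹
      have h3 : a⁻¹ * (a * y * a⁻¹ * y⁻¹) * a = a * y * a⁻¹ * y⁻¹ := by
        rw [h1, inv_mul_cancel_right]
      calc a⁻¹ * y * a⁻¹⁻¹ * y⁻¹ = (a⁻¹ * (a * y * a⁻¹ * y⁻¹) * a)⁻¹ := by group
        _ = _ := by rw [h3]
    rw [h2, map_inv, ha, inv_one]

/-- the index of the radical is at most the square of the multiplicity -/
theorem rad_index_le (A : Subgroup D) (hA : A ≤ Subgroup.center D)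
    (hc : ∀ x y : D, x * y * x⁻¹ * y⁻¹ ∈ A) (μ : A →* ℂˣ) {θ : D → ℂ} (hθ : IsHeilbronn θ)
    (hV : Virt θ) {m : ℕ} (hm : lam A μ θ 1 = m) (hm0 : m ≠ 0) :
    (rad A hA hc μ).index ≤ m ^ 2 := by
  classical
  have : Fintype D := Fintype.ofFinite D
  have hn : A.Normal := by
    constructor
    intro a ha g
    have h1 := Subgroup.mem_center_iff.mp (hA ha) g
    rw [h1, mul_inv_cancel_right]
    exact ha
  have hinv : ∀ (g : D) (a : A), μ (MulAut.conjNormal g a) = μ a := by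
    intro g a
    congr 1
    apply Subtype.ext
    rw [MulAut.conjNormal_apply, Subgroup.mem_center_iff.mp (hA a.2) g, mul_inv_cancel_right]
  set τ := lam A μ θ with hτ
  have hτH : IsHeilbronn τ := lam_heilbronn' hinv hθ
  have hτV : Virt τ := virt_lam' hinv hV
  have hoff : ∀ x : D, x ∉ rad A hA hc μ → τ x = 0 := by
    intro x hx
    have h0 : ∃ y, μ ⟨x * y * x⁻¹ * y⁻¹, hc x y⟩ ≠ 1 := by
      by_contra hcon
      push Not at hcon
      exact hx hcon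
    obtain ⟨y, hy⟩ := h0
    have h1 := Subgroup.mem_center_iff.mp (hA (hc x y)) y
    have h2 : y * x * y⁻¹ * ((⟨x * y * x⁻¹ * y⁻¹, hc x y⟩ : A) : D) = x := by
      change y * x * y⁻¹ * (x * y * x⁻¹ * y⁻¹) = x
      have h3 : x * y * x⁻¹ * y⁻¹ * (y * x * y⁻¹) = x := by group
      have h4 := Subgroup.mem_center_iff.mp (hA (hc x y)) (y * x * y⁻¹)
      rw [h4, h3]
    have h3 : τ x = ((μ ⟨x * y * x⁻¹ * y⁻¹, hc x y⟩ : ℂˣ) : ℂ) * τ (y * x * y⁻¹) := by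
      conv_lhs => rw [← h2]
      exact lam_mul _ _
    rw [hτH.conj] at h3
    have h4 : (((μ ⟨x * y * x⁻¹ * y⁻¹, hc x y⟩ : ℂˣ) : ℂ) - 1) * τ x = 0 := by
      rw [sub_mul, one_mul, ← h3, sub_self]
    rcases mul_eq_zero.mp h4 with h5 | h5
    · exact absurd (Units.ext (sub_eq_zero.mp h5)) hy
    · exact h5
  have h1 := one_le_norm hτH hτV (by rw [hm]; exact_mod_cast hm0)
  rw [finsum_eq_sum_of_fintype] at h1
  have h2 : ∑ g : D, ‖τ g‖ ^ 2 ≤ ∑ g : D, if g ∈ rad A hA hc μ then (m : ℝ) ^ 2 else 0 := by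
    refine Finset.sum_le_sum fun g _ => ?_
    split_ifs with h
    · have h3 := hτH.norm_le g
      rw [hm, Complex.natCast_re] at h3
      exact pow_le_pow_left₀ (norm_nonneg _) h3 2
    · rw [hoff g h, norm_zero]
      norm_num
  have h3 : (∑ g : D, if g ∈ rad A hA hc μ then (m : ℝ) ^ 2 else 0)
      = Nat.card (rad A hA hc μ) * (m : ℝ) ^ 2 := by
    rw [← Finset.sum_filter, Finset.sum_const, nsmul_eq_mul]
    congr 2
    rw [Nat.card_eq_fintype_card, Fintype.card_subtype]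
  rw [h3] at h2
  have h4 : (Nat.card D : ℝ) ≤ Nat.card (rad A hA hc μ) * (m : ℝ) ^ 2 := h1.trans h2
  have h5 : Nat.card D ≤ Nat.card (rad A hA hc μ) * m ^ 2 := by exact_mod_cast h4
  rw [← Subgroup.card_mul_index (rad A hA hc μ)] at h5
  exact Nat.le_of_mul_le_mul_left h5 Nat.card_pos

/-- the bound for the index of the centre -/
theorem index_le_prod (A : Subgroup D) (hA : A ≤ Subgroup.center D)
    (hc : ∀ x y : D, x * y * x⁻¹ * y⁻¹ ∈ A) (hZ : Subgroup.center D ≤ A) {θ : D → ℂ}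
    (hθ : IsHeilbronn θ) (hV : Virt θ) (Ω : Finset (A →* ℂˣ)) (m : (A →* ℂˣ) → ℕ)
    (hm : ∀ μ ∈ Ω, lam A μ θ 1 = m μ) (hm0 : ∀ μ ∈ Ω, m μ ≠ 0)
    (hsep : ∀ a : A, (∀ μ ∈ Ω, μ a = 1) → a = 1) :
    A.index ≤ ∏ μ ∈ Ω, m μ ^ 2 := by
  classical
  have h1 : (⨅ μ : Ω, rad A hA hc μ.1) ≤ A := by
    intro x hx
    rw [Subgroup.mem_iInf] at hx
    apply hZ
    rw [Subgroup.mem_center_iff]
    intro y
    have h2 : (⟨x * y * x⁻¹ * y⁻¹, hc x y⟩ : A) = 1 := hsep _ fun μ hμ => hx ⟨μ, hμ⟩ y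
    have h3 : x * y * x⁻¹ * y⁻¹ = 1 := congrArg Subtype.val h2
    rw [mul_inv_eq_one, mul_inv_eq_iff_eq_mul] at h3
    exact h3.symm
  have h2 : A.index ≤ (⨅ μ : Ω, rad A hA hc μ.1).index :=
    Nat.le_of_dvd (Nat.pos_of_ne_zero Subgroup.index_ne_zero_of_finite)
      (Subgroup.index_dvd_of_le h1)
  refine h2.trans ((Subgroup.index_iInf_le _).trans ?_)
  rw [← Finset.prod_coe_sort Ω (fun μ => m μ ^ 2)]
  exact Finset.prod_le_prod' fun μ _ =>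
    rad_index_le A hA hc μ.1 hθ hV (hm μ.1 μ.2) (hm0 μ.1 μ.2)

end Pool.Agent.Helper503_AD
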