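import Mathlib
import Pool.Agent.Helper503_AD.Mult
import Pool.Agent.R683.OrdE

/-!
# The action on the linear characters of an abelian normal subgroup
-/

set_option autoImplicit false
set_option linter.unusedSectionVars false

namespace Pool.Agent.Helper503_AD

open Pool.Agent.H302R2 Pool.Agent.H541R3.ART Pool.Agent.H302R5 Pool.Agent.H302R6
  Pool.Agent.W446.AS Pool.Agent.R362 Pool.Agent.R683.Ord

variable {G : Type} [Group G] [Finite G]

/-- the linear characters of an abelian subgroup which occur in a Heilbronn function -/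
lemma exists_omega {θ : G → ℂ} (hθ : IsHeilbronn θ) (A : Subgroup G)
    (hAc : ∀ a b : A, a * b = b * a) {r : ℕ} (hr : θ 1 = r) :
    ∃ (Ω : Finset (A →* ℂˣ)) (m : (A →* ℂˣ) → ℕ), (∀ μ, lam A μ θ 1 = m μ) ∧
      (∀ μ, μ ∈ Ω ↔ m μ ≠ 0) ∧ ∑ μ ∈ Ω, m μ = r := by
  classical
  have : Fintype A := Fintype.ofFinite A
  obtain ⟨ι, _, ψ, n, h⟩ := (hθ.comp A.subtype).comm_decomp hAc
  have hdec : ∀ a : A, θ a = ∑ i, (n i : ℂ) * ((ψ i a : ℂˣ) : ℂ) := h
  let m : (A →* ℂˣ) → ℕ := fun ν => ∑ i, if ψ i = ν then n i else 0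
  have hlam : ∀ ν : A →* ℂˣ, lam A ν θ 1 = (m ν : ℂ) := by
    intro ν
    rw [lam_eq]
    have h1 : ∀ a : A, θ (1 * a) * (((ν a)⁻¹ : ℂˣ) : ℂ)
        = ∑ i, (n i : ℂ) * ((((ψ i) * ν⁻¹) a : ℂˣ) : ℂ) := by
      intro a
      rw [one_mul, hdec, Finset.sum_mul]
      refine Finset.sum_congr rfl fun i _ => ?_
      rw [MonoidHom.mul_apply, MonoidHom.inv_apply]
      push_cast
      ring
    rw [Finset.sum_congr rfl (fun a _ => h1 a), Finset.sum_comm, Finset.mul_sum]
    simp only [m]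
    push_cast
    refine Finset.sum_congr rfl fun i _ => ?_
    rw [← Finset.mul_sum]
    have hA : (Nat.card A : ℂ) ≠ 0 := card_ne
    by_cases he : ψ i = ν
    · rw [if_pos he, he]
      have h2 : ∀ a : A, (((ν * ν⁻¹) a : ℂˣ) : ℂ) = 1 := by
        intro a
        rw [MonoidHom.mul_apply, MonoidHom.inv_apply, mul_inv_cancel]
        rfl
      rw [Finset.sum_congr rfl (fun a _ => h2 a), Finset.sum_const, Finset.card_univ, nsmul_eq_mul,
        mul_one, ← Nat.card_eq_fintype_card]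
      field_simp
    · rw [if_neg he]
      have h2 : ψ i * ν⁻¹ ≠ 1 := by
        intro h3
        exact he (mul_inv_eq_one.mp h3)
      have h3 := finsum_char_eq_zero (ψ i * ν⁻¹) h2
      rw [finsum_eq_sum_of_fintype] at h3
      rw [h3, mul_zero, mul_zero]
  have hsum : (∑ i, n i) = r := by
    have h1 := hdec 1
    rw [Subgroup.coe_one, hr] at h1
    have h2 : ∀ i, (n i : ℂ) * ((ψ i 1 : ℂˣ) : ℂ) = (n i : ℂ) := by
      intro i
      rw [map_one, Units.val_one, mul_one]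
    rw [Finset.sum_congr rfl (fun i _ => h2 i)] at h1
    exact_mod_cast h1.symm
  let Ω : Finset (A →* ℂˣ) := (Finset.univ.image ψ).filter fun μ => m μ ≠ 0
  have hΩ : ∀ μ, μ ∈ Ω ↔ m μ ≠ 0 := by
    intro μ
    rw [Finset.mem_filter]
    refine ⟨fun h => h.2, fun h => ⟨?_, h⟩⟩
    by_contra hcon
    apply h
    refine Finset.sum_eq_zero fun i _ => ?_
    rw [if_neg]
    rintro rfl
    exact hcon (Finset.mem_image.mpr ⟨i, Finset.mem_univ i, rfl⟩)
  refine ⟨Ω, m, hlam, hΩ, ?_⟩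
  rw [Finset.sum_filter_ne_zero, ← hsum]
  simp only [m]
  rw [Finset.sum_comm]
  refine Finset.sum_congr rfl fun i _ => ?_
  rw [Finset.sum_ite_eq, if_pos (Finset.mem_image.mpr ⟨i, Finset.mem_univ i, rfl⟩)]

/-- the bound for the index of the centralizer -/
theorem perm_le {θ : G → ℂ} (hθ : ∀ g h : G, θ (h * g * h⁻¹) = θ g) (A : Subgroup G) [A.Normal]
    (Ω : Finset (A →* ℂˣ)) (hne : Ω.Nonempty) (hΩ : ∀ μ, μ ∈ Ω ↔ lam A μ θ 1 ≠ 0)
    (hsep : ∀ a : A, (∀ μ ∈ Ω, μ a = 1) → a = 1) (S : Subgroup G) (hS : Group.IsSolvable S) :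
    (Subgroup.centralizer (A : Set G)).relIndex S ≤ 3 ^ (Ω.card - 1) := by
  classical
  have hmem : ∀ (g : G) (μ : A →* ℂˣ), μ ∈ Ω → μ.comp (MulAut.conjNormal g).toMonoidHom ∈ Ω := by
    intro g μ hμ
    rw [hΩ, lam_conj hθ A μ g]
    exact (hΩ μ).mp hμ
  let f : S →* Equiv.Perm Ω :=
    { toFun := fun s =>
        { toFun := fun μ => ⟨μ.1.comp (MulAut.conjNormal (s : G)⁻¹).toMonoidHom, hmem _ _ μ.2⟩
          invFun := fun μ => ⟨μ.1.comp (MulAut.conjNormal (s : G)).toMonoidHom, hmem _ _ μ.2⟩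
          left_inv := by
            intro μ
            apply Subtype.ext
            ext a
            change ((μ.1 (MulAut.conjNormal (s : G)⁻¹ (MulAut.conjNormal (s : G) a)) : ℂˣ) : ℂ) = _
            rw [← MulAut.mul_apply, ← map_mul, inv_mul_cancel, map_one, MulAut.one_apply]
          right_inv := by
            intro μ
            apply Subtype.ext
            ext a
            change ((μ.1 (MulAut.conjNormal (s : G) (MulAut.conjNormal (s : G)⁻¹ a)) : ℂˣ) : ℂ) = _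
            rw [← MulAut.mul_apply, ← map_mul, mul_inv_cancel, map_one, MulAut.one_apply] }
      map_one' := by
        ext μ a
        change ((μ.1 (MulAut.conjNormal ((1 : S) : G)⁻¹ a) : ℂˣ) : ℂ) = _
        rw [Subgroup.coe_one, inv_one, map_one, MulAut.one_apply]
        rfl
      map_mul' := by
        intro s t
        ext μ a
        change ((μ.1 (MulAut.conjNormal ((s * t : S) : G)⁻¹ a) : ℂˣ) : ℂ)
          = ((μ.1 (MulAut.conjNormal (t : G)⁻¹ (MulAut.conjNormal (s : G)⁻¹ a)) : ℂˣ) : ℂ)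
        rw [Subgroup.coe_mul, mul_inv_rev, map_mul, MulAut.mul_apply] }
  have hf : ∀ (s : S) (μ : Ω) (a : A), (f s μ).1 a = μ.1 (MulAut.conjNormal (s : G)⁻¹ a) :=
    fun s μ a => rfl
  have hnon : Nonempty Ω := hne.to_subtype
  have h1 := perm_bd' (lb_all (Nat.card Ω)) (Nat.card Ω) le_rfl Ω rfl f.range
    (Group.isSolvable_of_surjective (f := f.rangeRestrict) f.rangeRestrict_surjective)
  have h2 : f.ker ≤ (Subgroup.centralizer (A : Set G)).subgroupOf S := by
    intro s hs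
    rw [Subgroup.mem_subgroupOf, Subgroup.mem_centralizer_iff]
    intro a ha
    have h3 : (MulAut.conjNormal (s : G)⁻¹ ⟨a, ha⟩ : A) * (⟨a, ha⟩ : A)⁻¹ = 1 := by
      refine hsep _ fun μ hμ => ?_
      have h4 : μ (MulAut.conjNormal (s : G)⁻¹ ⟨a, ha⟩) = μ ⟨a, ha⟩ := by
        have h5 := hf s ⟨μ, hμ⟩ ⟨a, ha⟩
        rw [MonoidHom.mem_ker.mp hs] at h5
        exact h5.symm
      rw [map_mul, h4, map_inv, mul_inv_cancel]
    have h4 : (s : G)⁻¹ * a * (s : G)⁻¹⁻¹ * a⁻¹ = 1 := by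
      have h5 := congrArg (fun x : A => (x : G)) h3
      change ((MulAut.conjNormal (s : G)⁻¹ ⟨a, ha⟩ : A) : G) * a⁻¹ = 1 at h5
      rwa [MulAut.conjNormal_apply] at h5
    rw [mul_inv_eq_one, inv_inv, mul_assoc, inv_mul_eq_iff_eq_mul] at h4
    exact h4
  have h3 : (Subgroup.centralizer (A : Set G)).relIndex S ≤ f.ker.index :=
    Nat.le_of_dvd (Nat.pos_of_ne_zero Subgroup.index_ne_zero_of_finite)
      (Subgroup.index_dvd_of_le h2)
  have h4 : f.ker.index = Nat.card f.range := Subgroup.index_ker f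
  have h5 : Nat.card Ω = Ω.card := by
    rw [Nat.card_eq_fintype_card, Fintype.card_coe]
  rw [h5] at h1
  rw [h4] at h3
  exact h3.trans h1

end Pool.Agent.Helper503_AD
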