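import Mathlib
import Pool.Agent.Helper503_AD.JorPair
import Pool.Agent.Helper503_AD.JorPerm
import Pool.Agent.Helper503_AD.Soc
import Pool.Agent.Helper503_AD.Rep

/-!
# Large abelian normal subgroups
-/

set_option autoImplicit false
set_option linter.unusedSectionVars false

namespace Pool.Agent.Helper503_AD

open Pool.Agent.H302R2 Pool.Agent.H541R3.ART Pool.Agent.H302R5 Pool.Agent.H302R6
  Pool.Agent.W446.AS Pool.Agent.R362 Pool.Agent.R683.Ord

variable {G : Type} [Group G] [Finite G]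

/-- the weights of a constituent occur in the Heilbronn function -/
lemma weight_mem {θ : G → ℂ} (hθ : IsHeilbronn θ) {V : Type} [AddCommGroup V]
    [Module ℂ V] [FiniteDimensional ℂ V] {ρ : Representation ℂ G V} (hρ : Irred ρ)
    (hne : pr θ ρ.character ≠ 0) (A : Subgroup G) [A.Normal] (μ : A →* ℂˣ)
    (v₀ : V) (hv₀ : v₀ ≠ 0) (hμ : ∀ a : A, ρ a v₀ = ((μ a : ℂˣ) : ℂ) • v₀) :
    lam A μ θ 1 ≠ 0 := by
  classical
  intro h0
  apply hne
  obtain ⟨U, σ, hσ, hσv, hσμ, -, hpr⟩ := stab_rep hρ A μ v₀ hv₀ hμ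
  let A' : Subgroup (stab A μ) := A.subgroupOf (stab A μ)
  let e : A' ≃* A := Subgroup.subgroupOfEquivOfLe (le_stab A μ)
  let μ' : A' →* ℂˣ := μ.comp e.toMonoidHom
  have hμ'e : ∀ a : A', μ' a = μ (e a) := fun a => rfl
  have hμ' : ∀ (t : stab A μ) (a : A'), μ' (MulAut.conjNormal t a) = μ' a := by
    intro t a
    rw [hμ'e, hμ'e, ← (mem_stab.mp t.2) (e a)]
    congr 1
  have hrest : IsHeilbronn (fun x : stab A μ => θ x) := hθ.comp (stab A μ).subtype
  have hθ1 : lam A' μ' (fun x : stab A μ => θ x) 1 = 0 := by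
    rw [← h0]
    have : Fintype A := Fintype.ofFinite A
    have : Fintype A' := Fintype.ofFinite A'
    rw [lam_eq, lam_eq, Nat.card_congr e.toEquiv, ← Equiv.sum_comp e.toEquiv
      (fun a : A => θ (1 * a) * (((μ a)⁻¹ : ℂˣ) : ℂ))]
    rfl
  have hH := lam_heilbronn' hμ' hrest
  have hz : lam A' μ' (fun x : stab A μ => θ x) = 0 := by
    funext g
    have h2 := hH.norm_le g
    rw [hθ1, Complex.zero_re] at h2
    simpa using h2
  rw [hpr θ hθ.conj, ← pr_lam' (μ := μ') (fun g x => σ.char_conj g x) (by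
      intro g a
      exact hσμ g (e a)), hz, pr_zero_left]

/-- the occurring linear characters separate the elements -/
lemma sep_of_faith {θ : G → ℂ} (hθ : IsHeilbronn θ)
    (hfaith : ∀ g : G, (∀ (n : ℕ) (ρ : Representation ℂ G (Fin n → ℂ)), Irred ρ →
      pr θ ρ.character ≠ 0 → ρ g = 1) → g = 1)
    (A : Subgroup G) [A.Normal] (hAc : ∀ a b : A, a * b = b * a) (a : A)
    (ha : ∀ μ : A →* ℂˣ, lam A μ θ 1 ≠ 0 → μ a = 1) : a = 1 := by
  classical
  apply Subtype.ext
  apply hfaith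
  intro n ρ hρ hne
  by_contra hcon
  let f : (Fin n → ℂ) →ₗ[ℂ] (Fin n → ℂ) := ρ a - 1
  let W : Submodule ℂ (Fin n → ℂ) := LinearMap.range f
  have hW : W ≠ ⊥ := by
    intro h
    apply hcon
    have h1 : f = 0 := LinearMap.range_eq_bot.mp h
    exact sub_eq_zero.mp h1
  have hinv : ∀ (b : A) (w : Fin n → ℂ), w ∈ W → ρ b w ∈ W := by
    rintro b _ ⟨v, rfl⟩
    refine ⟨ρ b v, ?_⟩
    change ρ a (ρ b v) - ρ b v = ρ b (ρ a v - v)
    have h1 : (a : G) * b = b * a := congrArg Subtype.val (hAc a b)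
    rw [map_sub, ← Module.End.mul_apply, ← Module.End.mul_apply, ← map_mul, ← map_mul, h1]
  let σ : Representation ℂ A W :=
    { toFun := fun b => (ρ b).restrict (fun w hw => hinv b w hw)
      map_one' := by
        ext v
        simp
      map_mul' := by
        intro x y
        ext v
        simp }
  have hσ : ∀ (b : A) (w : W), ((σ b w : W) : Fin n → ℂ) = ρ b w := fun b w => rfl
  have hnt : Nontrivial W := (Submodule.nontrivial_iff_ne_bot).mpr hW
  obtain ⟨μ, w, hw, hμ⟩ := exists_weight hAc σ hnt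
  have hw0 : (w : Fin n → ℂ) ≠ 0 := fun h => hw (Subtype.ext h)
  have hμw : ∀ b : A, ρ b (w : Fin n → ℂ) = ((μ b : ℂˣ) : ℂ) • (w : Fin n → ℂ) := by
    intro b
    have h1 := congrArg (fun x : W => (x : Fin n → ℂ)) (hμ b)
    exact h1
  have h1 := ha μ (weight_mem hθ hρ hne A μ w hw0 hμw)
  have h2 : ρ a (w : Fin n → ℂ) = w := by
    rw [hμw, h1, Units.val_one, one_smul]
  obtain ⟨v, hv⟩ := w.2
  have hv' : ρ a v = v + w := by
    have h3 : ρ a v - v = w := hv
    rw [← h3]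
    abel
  have h3 : ∀ k : ℕ, (ρ a ^ k) v = v + (k : ℂ) • (w : Fin n → ℂ) := by
    intro k
    induction k with
    | zero => simp
    | succ k ih =>
      rw [pow_succ', Module.End.mul_apply, ih, map_add, map_smul, h2, hv']
      push_cast
      rw [add_smul, one_smul]
      abel
  have h4 := h3 (Nat.card A)
  rw [← map_pow] at h4
  have h5 : ((a : G) ^ Nat.card A) = 1 := by
    rw [← Subgroup.coe_pow, pow_card_eq_one', Subgroup.coe_one]
  rw [h5, map_one, Module.End.one_apply, left_eq_add] at h4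
  rcases smul_eq_zero.mp h4 with h6 | h6
  · exact card_ne h6
  · exact hw0 h6

/-- the bound for a class two subgroup, in terms of subgroups -/
theorem relIndex_le_prod (A D : Subgroup G) (hAD : A ≤ D) (hA : ∀ a ∈ A, ∀ x ∈ D, a * x = x * a)
    (hc : ∀ x ∈ D, ∀ y ∈ D, x * y * x⁻¹ * y⁻¹ ∈ A)
    (hZ : ∀ x ∈ D, (∀ y ∈ D, x * y = y * x) → x ∈ A) {θ : G → ℂ}
    (hθ : IsHeilbronn θ) (hV : Virt θ) (Ω : Finset (A →* ℂˣ)) (m : (A →* ℂˣ) → ℕ)
    (hm : ∀ μ, lam A μ θ 1 = m μ) (hm0 : ∀ μ ∈ Ω, m μ ≠ 0)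
    (hsep : ∀ a : A, (∀ μ ∈ Ω, μ a = 1) → a = 1) :
    A.relIndex D ≤ ∏ μ ∈ Ω, m μ ^ 2 := by
  classical
  let A' : Subgroup D := A.subgroupOf D
  let e : A' ≃* A := Subgroup.subgroupOfEquivOfLe hAD
  let F : (A →* ℂˣ) → (A' →* ℂˣ) := fun μ => μ.comp e.toMonoidHom
  have hF : Function.Injective F := by
    intro μ ν h
    ext a
    have h1 := DFunLike.congr_fun h (e.symm a)
    change μ (e (e.symm a)) = ν (e (e.symm a)) at h1
    rw [e.apply_symm_apply] at h1
    rw [h1]
  let m' : (A' →* ℂˣ) → ℕ := fun ν => m (ν.comp e.symm.toMonoidHom)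
  have hm' : ∀ μ, m' (F μ) = m μ := by
    intro μ
    change m ((μ.comp e.toMonoidHom).comp e.symm.toMonoidHom) = m μ
    congr 1
  have hlam : ∀ μ, lam A' (F μ) (fun x : D => θ x) 1 = lam A μ θ 1 := by
    intro μ
    have : Fintype A := Fintype.ofFinite A
    have : Fintype A' := Fintype.ofFinite A'
    rw [lam_eq, lam_eq, Nat.card_congr e.toEquiv, ← Equiv.sum_comp e.toEquiv
      (fun a : A => θ (1 * a) * (((μ a)⁻¹ : ℂˣ) : ℂ))]
    rfl
  have h1 := index_le_prod (D := D) A' (by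
      intro a ha
      rw [Subgroup.mem_center_iff]
      intro g
      apply Subtype.ext
      exact (hA a ha g g.2).symm) (fun x y => hc x x.2 y y.2) (by
      intro x hx
      rw [Subgroup.mem_center_iff] at hx
      exact hZ x x.2 fun y hy => (congrArg Subtype.val (hx ⟨y, hy⟩)).symm)
    (θ := fun x : D => θ x) (hθ.comp D.subtype) (hV.comp D.subtype) (Ω.image F) m' (by
      intro ν hν
      obtain ⟨μ, -, rfl⟩ := Finset.mem_image.mp hν
      rw [hlam, hm, hm']) (by
      intro ν hν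
      obtain ⟨μ, hμ, rfl⟩ := Finset.mem_image.mp hν
      rw [hm']
      exact hm0 μ hμ) (by
      intro a ha
      have h2 : e a = 1 := by
        refine hsep _ fun μ hμ => ?_
        exact ha (F μ) (Finset.mem_image_of_mem F hμ)
      rwa [MulEquiv.map_eq_one_iff] at h2)
  rw [Finset.prod_image (fun a _ b _ h => hF h)] at h1
  simp only [hm'] at h1
  exact h1

end Pool.Agent.Helper503_AD
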