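import Mathlib
import Pool.Agent.Helper503_AD.JorMain
import Pool.Agent.Helper503_AD.FrameS

/-!
# Large abelian normal subgroups: the faithful case
-/

set_option autoImplicit false
set_option linter.unusedSectionVars false

namespace Pool.Agent.Helper503_AD

open Pool.Agent.H302R2 Pool.Agent.H541R3.ART Pool.Agent.H302R5 Pool.Agent.H302R6
  Pool.Agent.W446.AS Pool.Agent.R362 Pool.Agent.R683.Ord

variable {G : Type} [Group G] [Finite G]

/-- a maximal abelian normal subgroup has small index in its centralizer -/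
theorem cent_bound {θ : G → ℂ} (hθ : IsHeilbronn θ) (hV : Virt θ) (A S : Subgroup G)
    (hAn : A.Normal) (hSn : S.Normal) (hS : Group.IsSolvable S) (hAS : A ≤ S)
    (hAc : ∀ a ∈ A, ∀ b ∈ A, a * b = b * a)
    (hmax : ∀ A' : Subgroup G, A'.Normal → A' ≤ S → (∀ a ∈ A', ∀ b ∈ A', a * b = b * a) →
      A ≤ A' → A' ≤ A)
    (Ω : Finset (A →* ℂˣ)) (m : (A →* ℂˣ) → ℕ)
    (hm : ∀ μ, lam A μ θ 1 = m μ) (hm0 : ∀ μ ∈ Ω, m μ ≠ 0)
    (hsep : ∀ a : A, (∀ μ ∈ Ω, μ a = 1) → a = 1) :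
    (A.relIndex (S ⊓ Subgroup.centralizer (A : Set G))) ^ 5 ≤ ∏ μ ∈ Ω, m μ ^ 34 := by
  classical
  let C : Subgroup G := S ⊓ Subgroup.centralizer (A : Set G)
  have hCmem : ∀ x, x ∈ C ↔ x ∈ S ∧ ∀ y ∈ A, y * x = x * y := by
    intro x
    rw [Subgroup.mem_inf, Subgroup.mem_centralizer_iff]
    rfl
  have hCn : C.Normal := by
    have := centralizer_normal hAn
    exact Subgroup.normal_inf_normal _ _
  have hAC : A ≤ C := fun a ha => (hCmem a).mpr ⟨hAS ha, fun y hy => hAc y hy a ha⟩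
  have hCs : Group.IsSolvable C :=
    Group.isSolvable_of_isSolvable_injective (f := Subgroup.inclusion (inf_le_left : C ≤ S))
      (Subgroup.inclusion_injective _)
  let B : Subgroup C := A.subgroupOf C
  have hBmem : ∀ x : C, x ∈ B ↔ (x : G) ∈ A := fun x => Subgroup.mem_subgroupOf
  have hBc : ∀ x ∈ B, ∀ y : C, x * y = y * x := by
    intro x hx y
    apply Subtype.ext
    exact ((hCmem y).mp y.2).2 x ((hBmem x).mp hx)
  have hBn : B.Normal := by
    constructor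
    intro b hb g
    have h1 : g * b * g⁻¹ = b := by
      rw [← hBc b hb g, mul_inv_cancel_right]
    rw [h1]
    exact hb
  let E : Subgroup C := soc B
  have hEn : E.Normal := soc_normal hBn
  let F : Subgroup G := E.map C.subtype
  have hFmem : ∀ x : C, x ∈ E → (x : G) ∈ F := fun x hx => ⟨x, hx, rfl⟩
  have hFC : F ≤ C := by
    rintro _ ⟨x, -, rfl⟩
    exact x.2
  have hFn : F.Normal := by
    constructor
    rintro _ ⟨x, hx, rfl⟩ g
    let φ : C ≃* C := MulAut.conjNormal g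
    have hφ : ∀ y : C, ((φ y : C) : G) = g * y * g⁻¹ := fun y => MulAut.conjNormal_apply g y
    have hφB : B.map φ.toMonoidHom = B := by
      apply le_antisymm
      · rintro _ ⟨y, hy, rfl⟩
        change φ y ∈ B
        rw [hBmem, hφ]
        exact hAn.conj_mem _ ((hBmem y).mp hy) g
      · intro y hy
        refine ⟨φ.symm y, ?_, φ.apply_symm_apply y⟩
        change φ.symm y ∈ B
        rw [hBmem]
        have h1 : ((φ.symm y : C) : G) = g⁻¹ * y * g⁻¹⁻¹ := by
          have h2 := hφ (φ.symm y)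
          rw [φ.apply_symm_apply] at h2
          rw [h2]
          group
        rw [h1]
        exact hAn.conj_mem _ ((hBmem y).mp hy) g⁻¹
    have h1 := soc_map φ hφB ⟨x, hx, rfl⟩
    exact ⟨φ x, h1, hφ x⟩
  have hAF : A ≤ F := fun z hz => ⟨⟨z, hAC hz⟩, le_soc B hz, rfl⟩
  -- the centralizer of the socle
  have hcent : ∀ x : C, (∀ y ∈ E, x * y = y * x) → x ∈ B := by
    let X : Subgroup C := Subgroup.centralizer (E : Set C)
    have hXn : X.Normal := inferInstance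
    have hBX : B ≤ X := by
      intro b hb
      rw [Subgroup.mem_centralizer_iff]
      intro y _
      exact (hBc b hb y).symm
    have hXB : X ≤ B := by
      by_contra hnot
      obtain ⟨N, hNn, hBN, hNX, hmin, -⟩ := exists_min B X hBn hXn (lt_of_le_not_ge hBX hnot)
      have hNE : N ≤ E := IsMin.le_soc ⟨hNn, hBN, hmin⟩
      let A' : Subgroup G := F ⊓ Subgroup.centralizer (F : Set G)
      have hA' : A' ≤ A := by
        refine hmax A' ?_ (inf_le_left.trans (hFC.trans inf_le_left)) ?_ ?_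
        · have := centralizer_normal hFn
          exact Subgroup.normal_inf_normal _ _
        · intro a ha b hb
          exact Subgroup.mem_centralizer_iff.mp hb.2 a ha.1
        · refine le_inf hAF ?_
          intro a ha
          rw [Subgroup.mem_centralizer_iff]
          intro y hy
          exact (((hCmem y).mp (hFC hy)).2 a ha).symm
      have hNB : N ≤ B := by
        intro x hx
        rw [hBmem]
        refine hA' ⟨hFmem x (hNE hx), Subgroup.mem_centralizer_iff.mpr ?_⟩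
        rintro _ ⟨y, hy, rfl⟩
        have h1 := Subgroup.mem_centralizer_iff.mp (hNX hx) y hy
        exact congrArg (fun z : C => (z : G)) h1
      exact absurd hNB hBN.not_ge
    intro x hx
    apply hXB
    rw [Subgroup.mem_centralizer_iff]
    intro y hy
    exact (hx y hy).symm
  -- the subgroup acting trivially on the socle
  let D : Subgroup C := CE B E hEn
  have hED : E ≤ D := fun x hx y hy => soc_comm hBn x hx y hy
  have hDD : ∀ x ∈ D, ∀ y ∈ D, x * y * x⁻¹ * y⁻¹ ∈ B := by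
    intro x hx y hy
    have h0 : ∀ e ∈ E, (x * y) * e * (x * y)⁻¹ = (y * x) * e * (y * x)⁻¹ := by
      intro e he
      obtain ⟨b, hb, hbe⟩ : ∃ b ∈ B, x * e * x⁻¹ = b * e := ⟨x * e * x⁻¹ * e⁻¹, hx e he, by group⟩
      obtain ⟨c, hc, hce⟩ : ∃ c ∈ B, y * e * y⁻¹ = c * e := ⟨y * e * y⁻¹ * e⁻¹, hy e he, by group⟩
      have h1 : x * c * x⁻¹ = c := by rw [← hBc c hc x, mul_inv_cancel_right]
      have h2 : y * b * y⁻¹ = b := by rw [← hBc b hb y, mul_inv_cancel_right]
      calc (x * y) * e * (x * y)⁻¹ = x * (y * e * y⁻¹) * x⁻¹ := by group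
        _ = (x * c * x⁻¹) * (x * e * x⁻¹) := by rw [hce]; group
        _ = c * (b * e) := by rw [h1, hbe]
        _ = b * (c * e) := by rw [← mul_assoc, hBc c hc b, mul_assoc]
        _ = (y * b * y⁻¹) * (y * e * y⁻¹) := by rw [h2, hce]
        _ = y * (b * e) * y⁻¹ := by group
        _ = _ := by rw [← hbe]; group
    apply hcent
    intro e he
    have h1 := h0 ((y * x)⁻¹ * e * (y * x)⁻¹⁻¹) (hEn.conj_mem e he (y * x)⁻¹)
    have h2 : (x * y * x⁻¹ * y⁻¹) * e * (x * y * x⁻¹ * y⁻¹)⁻¹ = e := by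
      calc (x * y * x⁻¹ * y⁻¹) * e * (x * y * x⁻¹ * y⁻¹)⁻¹
          = (x * y) * ((y * x)⁻¹ * e * (y * x)⁻¹⁻¹) * (x * y)⁻¹ := by group
        _ = (y * x) * ((y * x)⁻¹ * e * (y * x)⁻¹⁻¹) * (y * x)⁻¹ := h1
        _ = e := by group
    rwa [mul_inv_eq_iff_eq_mul] at h2
  let D' : Subgroup G := D.map C.subtype
  have hprod : A.relIndex D' ≤ ∏ μ ∈ Ω, m μ ^ 2 := by
    refine relIndex_le_prod A D' ?_ ?_ ?_ ?_ hθ hV Ω m hm hm0 hsep
    · intro a ha
      exact ⟨⟨a, hAC ha⟩, hED (le_soc B ha), rfl⟩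
    · rintro a ha _ ⟨x, -, rfl⟩
      exact ((hCmem x).mp x.2).2 a ha
    · rintro _ ⟨x, hx, rfl⟩ _ ⟨y, hy, rfl⟩
      exact hDD x hx y hy
    · rintro _ ⟨x, hx, rfl⟩ h
      refine hcent x fun y hy => ?_
      apply Subtype.ext
      exact h y ⟨y, hED hy, rfl⟩
  -- the orders
  have hbd := soc_bound hBn
  have hcB : Nat.card B = Nat.card A := Nat.card_congr (Subgroup.subgroupOfEquivOfLe hAC).toEquiv
  have hcD : Nat.card D = Nat.card D' :=
    Nat.card_congr (Subgroup.equivMapOfInjective _ C.subtype C.subtype_injective).toEquiv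
  have hAD : A ≤ D' := fun a ha => ⟨⟨a, hAC ha⟩, hED (le_soc B ha), rfl⟩
  have h1 : Nat.card D' = Nat.card A * A.relIndex D' := (card_mul_relIndex_of_le hAD).symm
  have h2 : Nat.card C = Nat.card A * A.relIndex C := (card_mul_relIndex_of_le hAC).symm
  have h3 : Nat.card (soc B) ≤ Nat.card D := Subgroup.card_le_of_le hED
  have hApos : 0 < Nat.card A := Nat.card_pos
  have h4 : A.relIndex C ^ 5 ≤ A.relIndex D' ^ 17 := by
    have hpos : 0 < Nat.card A ^ 17 := by positivity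
    refine Nat.le_of_mul_le_mul_left ?_ hpos
    calc Nat.card A ^ 17 * A.relIndex C ^ 5 = Nat.card C ^ 5 * Nat.card B ^ 12 := by
          rw [hcB, h2]; ring
      _ ≤ Nat.card D ^ 5 * Nat.card (soc B) ^ 12 := hbd
      _ ≤ Nat.card D ^ 5 * Nat.card D ^ 12 :=
          Nat.mul_le_mul_left _ (Nat.pow_le_pow_left h3 12)
      _ = Nat.card A ^ 17 * A.relIndex D' ^ 17 := by
          rw [← pow_add, hcD, h1]; ring
  calc A.relIndex C ^ 5 ≤ A.relIndex D' ^ 17 := h4
    _ ≤ (∏ μ ∈ Ω, m μ ^ 2) ^ 17 := Nat.pow_le_pow_left hprod 17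
    _ = ∏ μ ∈ Ω, m μ ^ 34 := by
        rw [← Finset.prod_pow]
        exact Finset.prod_congr rfl fun μ _ => by rw [← pow_mul]

/-- the faithful case -/
theorem jor {θ : G → ℂ} (hθ : IsHeilbronn θ) (hV : Virt θ) {r : ℕ} (hr : θ 1 = r) (hr0 : r ≠ 0)
    (hfaith : ∀ g : G, (∀ (n : ℕ) (ρ : Representation ℂ G (Fin n → ℂ)), Irred ρ →
      pr θ ρ.character ≠ 0 → ρ g = 1) → g = 1)
    (S : Subgroup G) (hSn : S.Normal) (hS : Group.IsSolvable S) :
    ∃ A : Subgroup G, A.Normal ∧ A ≤ S ∧ (∀ a ∈ A, ∀ b ∈ A, a * b = b * a) ∧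
      ∃ (Ω : Finset (A →* ℂˣ)) (m : (A →* ℂˣ) → ℕ), Ω.Nonempty ∧ (∀ μ ∈ Ω, m μ ≠ 0) ∧
        ∑ μ ∈ Ω, m μ = r ∧
        A.relIndex S ^ 5 ≤ 3 ^ (5 * (Ω.card - 1)) * ∏ μ ∈ Ω, m μ ^ 34 := by
  classical
  obtain ⟨A, hA⟩ := (Set.toFinite {A : Subgroup G | A.Normal ∧ A ≤ S ∧
    ∀ a ∈ A, ∀ b ∈ A, a * b = b * a}).exists_maximal ⟨⊥, inferInstance, bot_le, by
      intro a ha b hb
      rw [Subgroup.mem_bot] at ha hb
      rw [ha, hb]⟩
  obtain ⟨hAn, hAS, hAc⟩ := hA.prop
  have hAc' : ∀ a b : A, a * b = b * a := fun a b => Subtype.ext (hAc a a.2 b b.2)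
  obtain ⟨Ω, m, hm, hΩ, hsum⟩ := exists_omega hθ A hAc' hr
  have hΩ' : ∀ μ, μ ∈ Ω ↔ lam A μ θ 1 ≠ 0 := by
    intro μ
    rw [hΩ, hm]
    exact_mod_cast Iff.rfl
  have hsep : ∀ a : A, (∀ μ ∈ Ω, μ a = 1) → a = 1 := by
    intro a ha
    exact sep_of_faith hθ hfaith A hAc' a fun μ hμ => ha μ ((hΩ' μ).mpr hμ)
  have hne : Ω.Nonempty := by
    rw [Finset.nonempty_iff_ne_empty]
    intro h
    rw [h, Finset.sum_empty] at hsum
    exact hr0 hsum.symm
  refine ⟨A, hAn, hAS, hAc, Ω, m, hne, fun μ hμ => (hΩ μ).mp hμ, hsum, ?_⟩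
  have h1 := perm_le hθ.conj A Ω hne hΩ' hsep S hS
  have h2 := cent_bound hθ hV A S hAn hSn hS hAS hAc (fun A' h1 h2 h3 h4 => hA.le_of_ge ⟨h1, h2, h3⟩ h4)
    Ω m hm (fun μ hμ => (hΩ μ).mp hμ) hsep
  have hAC : A ≤ S ⊓ Subgroup.centralizer (A : Set G) := by
    refine le_inf hAS ?_
    intro a ha
    rw [Subgroup.mem_centralizer_iff]
    intro b hb
    exact hAc b hb a ha
  have h3 : A.relIndex (S ⊓ Subgroup.centralizer (A : Set G)) *
      (S ⊓ Subgroup.centralizer (A : Set G)).relIndex S = A.relIndex S :=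
    Subgroup.relIndex_mul_relIndex _ _ _ hAC inf_le_left
  have h4 : (S ⊓ Subgroup.centralizer (A : Set G)).relIndex S
      = (Subgroup.centralizer (A : Set G)).relIndex S := by
    rw [inf_comm, Subgroup.inf_relIndex_right]
  rw [← h3, h4, mul_pow, mul_comm]
  refine Nat.mul_le_mul ?_ h2
  rw [mul_comm 5, pow_mul]
  exact Nat.pow_le_pow_left h1 5

end Pool.Agent.Helper503_AD
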