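import Mathlib
import Pool.Agent.Helper503_AD.JorAsm

/-!
# Large abelian normal subgroups: the general case
-/

set_option autoImplicit false
set_option linter.unusedSectionVars false

namespace Pool.Agent.Helper503_AD

open Pool.Agent.H302R2 Pool.Agent.H541R3.ART Pool.Agent.H302R5 Pool.Agent.H302R6
  Pool.Agent.W446.AS Pool.Agent.R362 Pool.Agent.R683.Ord

lemma num_a {ι : Type*} (Ω : Finset ι) (m : ι → ℕ) (hne : Ω.Nonempty) (hm0 : ∀ μ ∈ Ω, m μ ≠ 0)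
    {r : ℕ} (hsum : ∑ μ ∈ Ω, m μ = r) :
    3 ^ (5 * (Ω.card - 1)) * ∏ μ ∈ Ω, m μ ^ 34 ≤ 2 ^ (34 * (r - 1)) := by
  have hc : 0 < Ω.card := Finset.card_pos.mpr hne
  have h1 : ∏ μ ∈ Ω, m μ ^ 34 ≤ ∏ μ ∈ Ω, 2 ^ (34 * (m μ - 1)) := by
    refine Finset.prod_le_prod' fun μ hμ => ?_
    obtain ⟨k, hk⟩ := Nat.exists_eq_succ_of_ne_zero (hm0 μ hμ)
    have h2 : k < 2 ^ k := Nat.lt_two_pow_self
    rw [hk, Nat.succ_sub_one, mul_comm, pow_mul]
    exact Nat.pow_le_pow_left (by omega) 34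
  rw [Finset.prod_pow_eq_pow_sum, ← Finset.mul_sum] at h1
  have h2 : ∑ μ ∈ Ω, (m μ - 1) + Ω.card = r := by
    rw [← hsum, Finset.card_eq_sum_ones, ← Finset.sum_add_distrib]
    refine Finset.sum_congr rfl fun μ hμ => ?_
    have := hm0 μ hμ
    omega
  have h3 : 3 ^ (5 * (Ω.card - 1)) ≤ 2 ^ (34 * (Ω.card - 1)) := by
    rw [pow_mul, pow_mul]
    exact Nat.pow_le_pow_left (by norm_num) _
  calc 3 ^ (5 * (Ω.card - 1)) * ∏ μ ∈ Ω, m μ ^ 34
      ≤ 2 ^ (34 * (Ω.card - 1)) * 2 ^ (34 * ∑ μ ∈ Ω, (m μ - 1)) := Nat.mul_le_mul h3 h1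
    _ = 2 ^ (34 * (r - 1)) := by
      rw [← pow_add]
      congr 1
      omega

lemma num_base {m : ℕ} (hm : m ≠ 0) : 243 * m ^ 34 ≤ 19 ^ (5 * m) := by
  rcases Nat.lt_or_ge m 2 with h | h
  · have : m = 1 := by omega
    subst this
    norm_num
  · induction m, h using Nat.le_induction with
    | base => norm_num
    | succ n hn ih =>
      have h1 := ih (by omega)
      have h2 : 2 ^ 34 * (n + 1) ^ 34 ≤ 3 ^ 34 * n ^ 34 := by
        rw [← mul_pow, ← mul_pow]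
        exact Nat.pow_le_pow_left (by omega) 34
      have h3 : (3 : ℕ) ^ 34 ≤ 19 ^ 5 * 2 ^ 34 := by norm_num
      have h4 : (n + 1) ^ 34 ≤ 19 ^ 5 * n ^ 34 := by
        have hpos : 0 < 2 ^ 34 := by norm_num
        refine Nat.le_of_mul_le_mul_left ?_ hpos
        calc 2 ^ 34 * (n + 1) ^ 34 ≤ 3 ^ 34 * n ^ 34 := h2
          _ ≤ (19 ^ 5 * 2 ^ 34) * n ^ 34 := Nat.mul_le_mul_right _ h3
          _ = 2 ^ 34 * (19 ^ 5 * n ^ 34) := by ring
      calc 243 * (n + 1) ^ 34 ≤ 243 * (19 ^ 5 * n ^ 34) := Nat.mul_le_mul_left _ h4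
        _ = 243 * n ^ 34 * 19 ^ 5 := by ring
        _ ≤ 19 ^ (5 * n) * 19 ^ 5 := Nat.mul_le_mul_right _ h1
        _ = 19 ^ (5 * (n + 1)) := by rw [← pow_add]; congr 1

lemma num_b {ι : Type*} (Ω : Finset ι) (m : ι → ℕ) (hm0 : ∀ μ ∈ Ω, m μ ≠ 0)
    {r : ℕ} (hsum : ∑ μ ∈ Ω, m μ = r) :
    3 ^ (5 * (Ω.card - 1)) * ∏ μ ∈ Ω, m μ ^ 34 ≤ (19 ^ r) ^ 5 := by
  calc 3 ^ (5 * (Ω.card - 1)) * ∏ μ ∈ Ω, m μ ^ 34
      ≤ 243 ^ Ω.card * ∏ μ ∈ Ω, m μ ^ 34 := by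
        refine Nat.mul_le_mul_right _ ?_
        rw [pow_mul]
        exact Nat.pow_le_pow_right (by norm_num) (by omega)
    _ = ∏ μ ∈ Ω, (243 * m μ ^ 34) := by
        rw [Finset.prod_mul_distrib, Finset.prod_const]
    _ ≤ ∏ μ ∈ Ω, 19 ^ (5 * m μ) := Finset.prod_le_prod' fun μ hμ => num_base (hm0 μ hμ)
    _ = (19 ^ r) ^ 5 := by
        rw [Finset.prod_pow_eq_pow_sum, ← Finset.mul_sum, hsum, ← pow_mul, mul_comm]

variable {G : Type} [Group G] [Finite G]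

/-- the intersection of the kernels of the constituents -/
def ker0 (θ : G → ℂ) : Subgroup G where
  carrier := {g | ∀ (n : ℕ) (ρ : Representation ℂ G (Fin n → ℂ)), Irred ρ →
    pr θ ρ.character ≠ 0 → ρ g = 1}
  one_mem' := fun n ρ _ _ => map_one ρ
  mul_mem' := by
    intro a b ha hb n ρ h1 h2
    rw [map_mul, ha n ρ h1 h2, hb n ρ h1 h2, one_mul]
  inv_mem' := by
    intro a ha n ρ h1 h2
    have h3 : ρ a⁻¹ * ρ a = 1 := by rw [← map_mul, inv_mul_cancel, map_one]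
    rwa [ha n ρ h1 h2, mul_one] at h3

instance ker0_normal (θ : G → ℂ) : (ker0 θ).Normal := by
  constructor
  intro a ha g n ρ h1 h2
  rw [map_mul, map_mul, ha n ρ h1 h2, mul_one, ← map_mul, mul_inv_cancel, map_one]

/-- the general case -/
theorem jor_gen {θ : G → ℂ} (hθ : IsHeilbronn θ) (hV : Virt θ) {r : ℕ} (hr : θ 1 = r)
    (S : Subgroup G) (hSn : S.Normal) (hS : Group.IsSolvable S) :
    ∃ B : Subgroup G, B.Normal ∧ B ≤ S ∧ B.relIndex S ≤ 19 ^ r ∧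
      B.relIndex S ^ 5 ≤ 2 ^ (34 * (r - 1)) ∧
      ∀ χ ∈ Irr G, pr θ χ ≠ 0 → ∀ x ∈ ⁅B, B⁆, χ x = χ 1 := by
  classical
  have : Fintype G := Fintype.ofFinite G
  let K := ker0 θ
  let π : G →* G ⧸ K := QuotientGroup.mk' K
  have hπ : Function.Surjective π := QuotientGroup.mk'_surjective K
  have hpush : ∀ (n : ℕ) (ρ : Representation ℂ G (Fin n → ℂ)), Irred ρ → pr θ ρ.character ≠ 0 →
      ∃ ρ' : Representation ℂ (G ⧸ K) (Fin n → ℂ), Irred ρ' ∧ (∀ g, ρ' (π g) = ρ g) ∧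
        pr (push π θ) ρ'.character ≠ 0 := by
    intro n ρ hρ hne
    let ρ' : Representation ℂ (G ⧸ K) (Fin n → ℂ) :=
      QuotientGroup.lift K ρ (fun x hx => hx n ρ hρ hne)
    have hρ' : ∀ x, ρ' (π x) = ρ x := fun x => rfl
    refine ⟨ρ', ?_, hρ', ?_⟩
    · refine ⟨hρ.1, fun W hW => hρ.2 W ?_⟩
      intro x v hv
      rw [← hρ']
      exact hW (π x) v hv
    · rw [pr_push hπ]
      exact hne
  obtain ⟨r', hr', hr1⟩ := push_one_nat_le hπ hθ hr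
  have hH := push_isHeilbronn hπ hθ
  by_cases hr0 : r' = 0
  · -- no constituents
    have hz : push π θ = 0 := by
      funext g
      have h2 := hH.norm_le g
      rw [hr1, hr0, Nat.cast_zero, Complex.zero_re] at h2
      simpa using h2
    refine ⟨S, hSn, le_rfl, ?_, ?_, ?_⟩
    · rw [Subgroup.relIndex_self]
      exact Nat.one_le_pow _ _ (by norm_num)
    · rw [Subgroup.relIndex_self, one_pow]
      exact Nat.one_le_pow _ _ (by norm_num)
    · intro χ hχ hne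
      obtain ⟨n, ρ, hρ, rfl⟩ := exists_rep hχ
      obtain ⟨ρ', -, -, h3⟩ := hpush n ρ hρ hne
      rw [hz, pr_zero_left] at h3
      exact absurd rfl h3
  · have hfaith : ∀ g : G ⧸ K, (∀ (n : ℕ) (ρ : Representation ℂ (G ⧸ K) (Fin n → ℂ)), Irred ρ →
        pr (push π θ) ρ.character ≠ 0 → ρ g = 1) → g = 1 := by
      intro g₁ hg₁
      obtain ⟨g, rfl⟩ := hπ g₁
      have hg : g ∈ K := by
        intro n ρ hρ hne
        obtain ⟨ρ', h1, h2, h3⟩ := hpush n ρ hρ hne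
        rw [← h2]
        exact hg₁ n ρ' h1 h3
      exact (QuotientGroup.eq_one_iff g).mpr hg
    have hSs : Group.IsSolvable (S.map π) :=
      Group.isSolvable_of_surjective (f := π.subgroupMap S) (π.subgroupMap_surjective S)
    obtain ⟨A, hAn, hAS, hAc, Ω, m, hne, hm0, hsum, hbd⟩ := jor hH (Virt.push hπ hV) hr1 hr0 hfaith
      (S.map π) (hSn.map π hπ) hSs
    have hAcn : (A.comap π).Normal := hAn.comap π
    have hrel : (A.comap π ⊓ S).relIndex S = A.relIndex (S.map π) := by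
      rw [Subgroup.inf_relIndex_right, Subgroup.relIndex_comap]
    refine ⟨A.comap π ⊓ S, inferInstance, inf_le_right, ?_, ?_, ?_⟩
    · rw [hrel]
      have h1 := hbd.trans (num_b Ω m hm0 hsum)
      have h2 := (Nat.pow_le_pow_iff_left (by norm_num)).mp h1
      exact h2.trans (Nat.pow_le_pow_right (by norm_num) hr')
    · rw [hrel]
      refine (hbd.trans (num_a Ω m hne hm0 hsum)).trans (Nat.pow_le_pow_right (by norm_num) ?_)
      omega
    · intro χ hχ hne x hx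
      obtain ⟨n, ρ, hρ, rfl⟩ := exists_rep hχ
      have h1 : ⁅A.comap π ⊓ S, A.comap π ⊓ S⁆ ≤ K := by
        rw [Subgroup.commutator_le]
        intro a ha b hb
        have h2 : π (a * b * a⁻¹ * b⁻¹) = 1 := by
          have h3 : π a * π b = π b * π a := hAc _ ha.1 _ hb.1
          rw [map_mul, map_mul, map_mul, map_inv, map_inv, h3, mul_inv_cancel_right, mul_inv_cancel]
        exact (QuotientGroup.eq_one_iff _).mp h2
      have h2 : ρ x = 1 := h1 hx n ρ hρ hne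
      change LinearMap.trace ℂ _ (ρ x) = LinearMap.trace ℂ _ (ρ 1)
      rw [h2, map_one ρ]

/-- the theorem for Artin L-functions -/
theorem art_jor {s₀ : ℂ} (A : ArtinData G s₀) {r : ℕ}
    (hr : meromorphicOrderAt (A.Lin ⊥ 1) s₀ = (r : WithTop ℤ)) (S : Subgroup G) (hSn : S.Normal)
    (hS : Group.IsSolvable S) :
    ∃ B : Subgroup G, B.Normal ∧ B ≤ S ∧ B.relIndex S ≤ 19 ^ r ∧
      B.relIndex S ^ 5 ≤ 2 ^ (34 * (r - 1)) ∧
      ∀ χ ∈ Irr G, meromorphicOrderAt (A.L χ) s₀ ≠ 0 →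
        (∀ x ∈ ⁅B, B⁆, χ x = χ 1) ∧
        ∀ μ : B →* ℂˣ, ∑ᶠ b : B, χ b * (((μ b)⁻¹ : ℂˣ) : ℂ) ≠ 0 →
          0 < meromorphicOrderAt (A.Lin B μ) s₀ := by
  classical
  obtain ⟨B, hBn, hBS, h1, h2, h3⟩ := jor_gen A.isHeilbronn (theta_virt A.ord) (A.theta_one hr)
    S hSn hS
  refine ⟨B, hBn, hBS, h1, h2, fun χ hχ hne => ⟨?_, ?_⟩⟩
  · exact h3 χ hχ (fun h => hne (ord_zero A hχ h))
  · intro μ hμ
    obtain ⟨n, ρ, hρ, rfl⟩ := exists_rep hχ
    obtain ⟨v₀, hv₀, hμv⟩ := exists_eig hμ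
    have h4 := weight_mem A.isHeilbronn hρ (fun h => hne (ord_zero A hχ h)) B μ v₀ hv₀ hμv
    obtain ⟨m, hm⟩ := A.isHeilbronn.mult B μ
    have h5 := order_of_mult A hm
    rw [h5]
    have h6 : m ≠ 0 := by
      rintro rfl
      apply h4
      rw [lam_one, hm]
      simp
    have h7 : 0 < m := Nat.pos_of_ne_zero h6
    exact_mod_cast h7

end Pool.Agent.Helper503_AD
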